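import Mathlib

/-!
# Averages of the images of a measure and their weak limits
-/

set_option autoImplicit false
set_option linter.unusedSectionVars false

open MeasureTheory Filter Topology Set
open scoped ENNReal NNReal

namespace Pool.Agent.U106.FC

variable {X : Type*} [MetricSpace X] [CompactSpace X] [MeasurableSpace X] [BorelSpace X]

/-- The average of the images of `ν` under `S^0, …, S^n`. -/
noncomputable def avg (S : X → X) (ν : Measure X) (n : ℕ) : Measure X :=
  ((n + 1 : ℕ) : ℝ≥0∞)⁻¹ • ∑ i ∈ Finset.range (n + 1), ν.map (S^[i])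

theorem avg_prob {S : X → X} (hS : Continuous S) (ν : Measure X) [IsProbabilityMeasure ν] (n : ℕ) :
    IsProbabilityMeasure (avg S ν n) := by
  constructor
  have h : ∀ i ∈ Finset.range (n + 1), (ν.map (S^[i])) univ = 1 := by
    intro i _
    rw [Measure.map_apply (hS.iterate i).measurable MeasurableSet.univ, preimage_univ, measure_univ]
  rw [avg, Measure.smul_apply, Measure.finsetSum_apply, Finset.sum_congr rfl h]
  simp only [Finset.sum_const, Finset.card_range, smul_eq_mul, nsmul_eq_mul, mul_one]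
  exact ENNReal.inv_mul_cancel (by simp) (ENNReal.natCast_ne_top _)

theorem integrable_cont {μ : Measure X} [IsFiniteMeasure μ] {F : X → ℝ} (hF : Continuous F) :
    Integrable F μ := by
  obtain ⟨C, hC⟩ := (isCompact_univ (X := X)).exists_bound_of_continuousOn hF.continuousOn
  exact Integrable.of_bound hF.aestronglyMeasurable C (Eventually.of_forall fun x => hC x (mem_univ x))

theorem integral_avg {S : X → X} (hS : Continuous S) (ν : Measure X) [IsProbabilityMeasure ν] (n : ℕ)
    {F : X → ℝ} (hF : Continuous F) :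
    ∫ x, F x ∂(avg S ν n) = ((n + 1 : ℕ) : ℝ)⁻¹ * ∑ i ∈ Finset.range (n + 1), ∫ x, F (S^[i] x) ∂ν := by
  have h1 : ∀ i, IsFiniteMeasure (ν.map (S^[i])) := fun i => inferInstance
  rw [avg, integral_smul_measure, integral_finsetSum_measure]
  · rw [ENNReal.toReal_inv, ENNReal.toReal_natCast, smul_eq_mul]
    congr 1
    refine Finset.sum_congr rfl fun i _ => ?_
    rw [integral_map (hS.iterate i).measurable.aemeasurable hF.aestronglyMeasurable]
  · intro i _
    exact integrable_cont hF

/-- Weak limits of the averages along an ultrafilter. -/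
theorem exists_limit' (U : Ultrafilter ℕ) (hU : (U : Filter ℕ) ≤ atTop) {S T : X → X} (hS : Continuous S) (hT : Continuous T)
    (hST : ∀ x, S (T x) = T (S x)) (ν : Measure X) [IsProbabilityMeasure ν]
    (hν : MeasurePreserving T ν ν) :
    ∃ ρ : Measure X, IsProbabilityMeasure ρ ∧
      MeasurePreserving S ρ ρ ∧ MeasurePreserving T ρ ρ ∧
      ∀ F : X → ℝ, Continuous F →
        Tendsto (fun n => ∫ x, F x ∂(avg S ν n)) U (𝓝 (∫ x, F x ∂ρ)) := by
  have hcomm : ∀ i x, S^[i] (T x) = T (S^[i] x) := by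
    intro i
    induction i with
    | zero => intro x; rfl
    | succ i ih =>
      intro x
      rw [Function.iterate_succ_apply, Function.iterate_succ_apply, hST, ih]
  let A : ℕ → ProbabilityMeasure X := fun n => ⟨avg S ν n, avg_prob hS ν n⟩
  obtain ⟨ρ, -, hρ⟩ := (isCompact_univ (X := ProbabilityMeasure X)).ultrafilter_le_nhds
    (U.map A) (by simp)
  have hlim : ∀ F : X → ℝ, Continuous F →
      Tendsto (fun n => ∫ x, F x ∂(avg S ν n)) U (𝓝 (∫ x, F x ∂(ρ : Measure X))) := by
    intro F hF
    have h1 : Tendsto A U (𝓝 ρ) := hρ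
    rw [ProbabilityMeasure.tendsto_iff_forall_integral_tendsto] at h1
    exact h1 (BoundedContinuousFunction.mkOfCompact ⟨F, hF⟩)
  have hSinv : ∀ F : X → ℝ, Continuous F →
      ∫ x, F (S x) ∂(ρ : Measure X) = ∫ x, F x ∂(ρ : Measure X) := by
    intro F hF
    obtain ⟨C, hC⟩ := (isCompact_univ (X := X)).exists_bound_of_continuousOn hF.continuousOn
    have hC' : ∀ x, |F x| ≤ C := fun x => hC x (mem_univ x)
    have h1 := (hlim _ (hF.comp hS)).sub (hlim F hF)
    have h2 : Tendsto (fun n : ℕ => ∫ x, (F ∘ S) x ∂(avg S ν n) - ∫ x, F x ∂(avg S ν n)) U (𝓝 0) := by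
      refine Tendsto.mono_left ?_ hU
      have h3 : ∀ n : ℕ, ∫ x, (F ∘ S) x ∂(avg S ν n) - ∫ x, F x ∂(avg S ν n) =
          ((n + 1 : ℕ) : ℝ)⁻¹ * (∫ x, F (S^[n + 1] x) ∂ν - ∫ x, F x ∂ν) := by
        intro n
        rw [integral_avg hS ν n (hF.comp hS), integral_avg hS ν n hF, ← mul_sub]
        congr 1
        have h4 : ∀ i, ∫ x, (F ∘ S) (S^[i] x) ∂ν = ∫ x, F (S^[i + 1] x) ∂ν := by
          intro i
          simp only [Function.comp, Function.iterate_succ_apply']
        simp only [h4]
        rw [Finset.sum_range_succ (fun i => ∫ x, F (S^[i + 1] x) ∂ν),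
          Finset.sum_range_succ' (fun i => ∫ x, F (S^[i] x) ∂ν)]
        simp
      have h5 : ∀ i, |∫ x, F (S^[i] x) ∂ν| ≤ C := by
        intro i
        have := norm_integral_le_of_norm_le_const (μ := ν) (f := fun x => F (S^[i] x)) (C := C)
          (Eventually.of_forall fun x => hC' _)
        simpa using this
      have h6 : ∀ n : ℕ, ‖∫ x, (F ∘ S) x ∂(avg S ν n) - ∫ x, F x ∂(avg S ν n)‖ ≤
          (2 * C) * (1 / ((n : ℝ) + 1)) := by
        intro n
        rw [h3 n, norm_mul, Real.norm_eq_abs, Real.norm_eq_abs]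
        have h7 : |∫ x, F (S^[n + 1] x) ∂ν - ∫ x, F x ∂ν| ≤ 2 * C := by
          have := abs_sub (∫ x, F (S^[n + 1] x) ∂ν) (∫ x, F x ∂ν)
          have h8 := h5 (n + 1)
          have h9 := h5 0
          simp only [Function.iterate_zero, id] at h9
          linarith
        have h8 : |((n + 1 : ℕ) : ℝ)⁻¹| = 1 / ((n : ℝ) + 1) := by
          rw [abs_of_nonneg (by positivity)]
          push_cast
          rw [one_div]
        rw [h8, mul_comm]
        exact mul_le_mul_of_nonneg_right h7 (by positivity)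
      refine squeeze_zero_norm h6 ?_
      have := tendsto_one_div_add_atTop_nhds_zero_nat (𝕜 := ℝ)
      simpa using this.const_mul (2 * C)
    have h3 := tendsto_nhds_unique h1 h2
    have : ∫ x, (F ∘ S) x ∂(ρ : Measure X) = ∫ x, F x ∂(ρ : Measure X) := by linarith
    exact this
  have hTinv : ∀ F : X → ℝ, Continuous F →
      ∫ x, F (T x) ∂(ρ : Measure X) = ∫ x, F x ∂(ρ : Measure X) := by
    intro F hF
    have h1 := hlim _ (hF.comp hT)
    have h2 := hlim F hF
    have h3 : ∀ n, ∫ x, (F ∘ T) x ∂(avg S ν n) = ∫ x, F x ∂(avg S ν n) := by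
      intro n
      rw [integral_avg hS ν n (hF.comp hT), integral_avg hS ν n hF]
      congr 1
      refine Finset.sum_congr rfl fun i _ => ?_
      have h4 : ∀ x, (F ∘ T) (S^[i] x) = (fun y => F (S^[i] y)) (T x) := by
        intro x
        simp only [Function.comp, hcomm]
      simp only [h4]
      conv_rhs => rw [← hν.map_eq]
      rw [integral_map hν.measurable.aemeasurable]
      exact (hF.comp (hS.iterate i)).aestronglyMeasurable
    simp only [h3] at h1
    exact tendsto_nhds_unique h1 h2
  have key : ∀ R : X → X, Continuous R →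
      (∀ F : X → ℝ, Continuous F → ∫ x, F (R x) ∂(ρ : Measure X) = ∫ x, F x ∂(ρ : Measure X)) →
      MeasurePreserving R (ρ : Measure X) (ρ : Measure X) := by
    intro R hR h
    refine ⟨hR.measurable, ?_⟩
    refine ext_of_forall_integral_eq_of_IsFiniteMeasure fun f => ?_
    rw [integral_map hR.measurable.aemeasurable f.continuous.aestronglyMeasurable]
    exact h f f.continuous
  exact ⟨ρ, inferInstance, key S hS hSinv, key T hT hTinv, hlim⟩

/-- Weak limits of the averages. -/
theorem exists_limit {S T : X → X} (hS : Continuous S) (hT : Continuous T)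
    (hST : ∀ x, S (T x) = T (S x)) (ν : Measure X) [IsProbabilityMeasure ν]
    (hν : MeasurePreserving T ν ν) :
    ∃ (ρ : Measure X) (U : Ultrafilter ℕ), IsProbabilityMeasure ρ ∧ (U : Filter ℕ) ≤ atTop ∧
      MeasurePreserving S ρ ρ ∧ MeasurePreserving T ρ ρ ∧
      ∀ F : X → ℝ, Continuous F →
        Tendsto (fun n => ∫ x, F x ∂(avg S ν n)) U (𝓝 (∫ x, F x ∂ρ)) := by
  obtain ⟨ρ, h1, h2, h3, h4⟩ := exists_limit' (Ultrafilter.of atTop) (Ultrafilter.of_le atTop)
    hS hT hST ν hν
  exact ⟨ρ, Ultrafilter.of atTop, h1, Ultrafilter.of_le atTop, h2, h3, h4⟩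

end Pool.Agent.U106.FC
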