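import Pool.Agent.U106.FC.Erg

/-!
# The circle: images of null sets, atomless parts, powers
-/

set_option autoImplicit false
set_option linter.unusedSectionVars false

open MeasureTheory Filter Topology Set
open scoped ENNReal NNReal

namespace Pool.Agent.U106.FC

/-- `x ↦ m x` on the circle. -/
abbrev mul (m : ℕ) : UnitAddCircle → UnitAddCircle := fun x => m • x

theorem cont_mul (m : ℕ) : Continuous (mul m) := continuous_nsmul m

theorem mul_iter (m i : ℕ) : (mul m)^[i] = mul (m ^ i) := by
  induction i with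
  | zero => funext x; simp [mul]
  | succ i ih =>
    funext x
    rw [Function.iterate_succ_apply, ih]
    simp only [mul, pow_succ, mul_smul]

theorem mul_comm' (m n : ℕ) (x : UnitAddCircle) : mul m (mul n x) = mul n (mul m x) := by
  simp only [mul, smul_smul, Nat.mul_comm]

theorem mp_vol {m : ℕ} (hm : 1 ≤ m) :
    MeasurePreserving (mul m) (volume : Measure UnitAddCircle) volume := by
  rcases Nat.lt_or_ge 1 m with h | h
  · exact (AddCircle.ergodic_nsmul (T := 1) h).toMeasurePreserving
  · have : m = 1 := le_antisymm h hm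
    subst this
    have : mul 1 = id := by funext x; simp [mul]
    rw [this]
    exact MeasurePreserving.id _

/-- The image of a compact null set under `x ↦ m x` is a null set. -/
theorem image_null {m : ℕ} (hm : 1 ≤ m) {K : Set UnitAddCircle} (hK : IsCompact K)
    (h0 : (volume : Measure UnitAddCircle) K = 0) :
    (volume : Measure UnitAddCircle) (mul m '' K) = 0 := by
  have hKc : IsCompact (mul m '' K) := hK.image (cont_mul m)
  rw [← (mp_vol hm).measure_preimage hKc.isClosed.measurableSet.nullMeasurableSet]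
  have hfin : {u : UnitAddCircle | m • u = 0}.Finite := AddCircle.finite_torsion 1 (by omega)
  have hsub : mul m ⁻¹' (mul m '' K) ⊆ ⋃ u ∈ {u : UnitAddCircle | m • u = 0}, (fun x => u + x) '' K := by
    rintro x ⟨y, hy, hxy⟩
    refine mem_iUnion₂.2 ⟨x - y, ?_, y, hy, by simp⟩
    have : m • x = m • y := hxy.symm
    simp only [mem_ofPred_eq, smul_sub, this, sub_self]
  refine measure_mono_null hsub ((measure_biUnion_null_iff hfin.countable).2 fun u _ => ?_)
  rw [image_add_left, measure_preimage_add]
  exact h0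

/-- The image of a singular measure is singular. -/
theorem singular_map {m : ℕ} (hm : 1 ≤ m) {μ : Measure UnitAddCircle} [IsFiniteMeasure μ]
    (h : μ ⟂ₘ volume) : μ.map (mul m) ⟂ₘ volume := by
  obtain ⟨s, hs, hμs, hvs⟩ := h
  -- `μ s = 0`, `vol sᶜ = 0`
  have hK : ∀ n : ℕ, ∃ K ⊆ sᶜ, IsClosed K ∧ μ (sᶜ \ K) < ENNReal.ofReal (1 / ((n : ℝ) + 1)) := by
    intro n
    have hpos : ENNReal.ofReal (1 / ((n : ℝ) + 1)) ≠ 0 := by
      have : (0 : ℝ) < 1 / ((n : ℝ) + 1) := by positivity
      simpa using this
    obtain ⟨K, hKs, hK, hlt⟩ := hs.compl.exists_isClosed_sdiff_lt (μ := μ) (measure_ne_top _ _) hpos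
    exact ⟨K, hKs, hK, hlt⟩
  choose K hKs hKc hKlt using hK
  have hnull : (volume : Measure UnitAddCircle) (⋃ n, mul m '' K n) = 0 :=
    measure_iUnion_null fun n => image_null hm (hKc n).isCompact
      (measure_mono_null (hKs n) hvs)
  have hmeas : MeasurableSet (⋃ n, mul m '' K n) :=
    MeasurableSet.iUnion fun n => ((hKc n).isCompact.image (cont_mul m)).isClosed.measurableSet
  refine ⟨(⋃ n, mul m '' K n)ᶜ, hmeas.compl, ?_, by rwa [compl_compl]⟩
  rw [Measure.map_apply (cont_mul m).measurable hmeas.compl]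
  have hsub : ∀ n : ℕ, mul m ⁻¹' (⋃ n, mul m '' K n)ᶜ ⊆ s ∪ (sᶜ \ K n) := by
    intro n x hx
    by_cases hxs : x ∈ s
    · exact Or.inl hxs
    · refine Or.inr ⟨hxs, fun hxK => hx ?_⟩
      exact mem_iUnion.2 ⟨n, x, hxK, rfl⟩
  have hle : ∀ n : ℕ, μ (mul m ⁻¹' (⋃ n, mul m '' K n)ᶜ) ≤ ENNReal.ofReal (1 / ((n : ℝ) + 1)) := by
    intro n
    refine (measure_mono (hsub n)).trans ((measure_union_le _ _).trans ?_)
    rw [hμs, zero_add]
    exact (hKlt n).le
  have hlim : Tendsto (fun n : ℕ => ENNReal.ofReal (1 / ((n : ℝ) + 1))) atTop (𝓝 0) := by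
    have := ENNReal.tendsto_ofReal (tendsto_one_div_add_atTop_nhds_zero_nat (𝕜 := ℝ))
    simpa using this
  exact le_antisymm (ge_of_tendsto' hlim hle) zero_le

/-- Images of atomless measures are atomless. -/
theorem atomless_map {m : ℕ} (hm : 1 ≤ m) {μ : Measure UnitAddCircle} (h : ∀ x, μ {x} = 0)
    (y : UnitAddCircle) : μ.map (mul m) {y} = 0 := by
  rw [Measure.map_apply (cont_mul m).measurable (measurableSet_singleton y)]
  have hfin : {u : UnitAddCircle | m • u = 0}.Finite := AddCircle.finite_torsion 1 (by omega)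
  by_cases hne : (mul m ⁻¹' {y}).Nonempty
  · obtain ⟨x, hx⟩ := hne
    have hsub : mul m ⁻¹' {y} ⊆ ⋃ u ∈ {u : UnitAddCircle | m • u = 0}, {u + x} := by
      intro z hz
      refine mem_iUnion₂.2 ⟨z - x, ?_, by simp⟩
      have h1 : m • z = y := hz
      have h2 : m • x = y := hx
      simp only [mem_ofPred_eq, smul_sub, h1, h2, sub_self]
    exact measure_mono_null hsub ((measure_biUnion_null_iff hfin.countable).2 fun u _ => h _)
  · rw [not_nonempty_iff_eq_empty.1 hne, measure_empty]

section atoms

variable {X : Type*} [MeasurableSpace X] [MeasurableSingletonClass X]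

/-- The atoms of a measure. -/
def atoms (ρ : Measure X) : Set X := {x | 0 < ρ {x}}

theorem atoms_countable (ρ : Measure X) [IsFiniteMeasure ρ] : (atoms ρ).Countable := by
  have h := Measure.countable_meas_pos_of_disjoint_iUnion (μ := ρ) (As := fun x : X => {x})
    (fun x => measurableSet_singleton x) (fun x y hxy => by simpa using hxy)
  exact h

/-- The atomless part of an invariant measure is invariant. -/
theorem atomless_part {R : X → X} {ρ : Measure X} [IsFiniteMeasure ρ]
    (hR : MeasurePreserving R ρ ρ) :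
    MeasurePreserving R (ρ.restrict (atoms ρ)ᶜ) (ρ.restrict (atoms ρ)ᶜ) := by
  have hD : MeasurableSet (atoms ρ) := (atoms_countable ρ).measurableSet
  have hsub : atoms ρ ⊆ R ⁻¹' atoms ρ := by
    intro x hx
    have h1 : ρ {x} ≤ ρ (R ⁻¹' {R x}) := measure_mono (by simp)
    rw [hR.measure_preimage (measurableSet_singleton _).nullMeasurableSet] at h1
    exact lt_of_lt_of_le hx h1
  have hae : atoms ρ =ᵐ[ρ] R ⁻¹' atoms ρ := by
    refine ae_eq_of_subset_of_measure_ge hsub ?_ hD.nullMeasurableSet (measure_ne_top _ _)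
    exact (hR.measure_preimage hD.nullMeasurableSet).le
  have h1 := hR.restrict_preimage hD.compl
  have h2 : ρ.restrict (R ⁻¹' (atoms ρ)ᶜ) = ρ.restrict (atoms ρ)ᶜ := by
    refine Measure.restrict_congr_set ?_
    rw [preimage_compl]
    exact hae.symm.compl
  rwa [h2] at h1

theorem restrict_atomless (ρ : Measure X) [IsFiniteMeasure ρ] (x : X) :
    ρ.restrict (atoms ρ)ᶜ {x} = 0 := by
  have hD : MeasurableSet (atoms ρ) := (atoms_countable ρ).measurableSet
  rw [Measure.restrict_apply (measurableSet_singleton x)]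
  by_cases hx : x ∈ atoms ρ
  · have : {x} ∩ (atoms ρ)ᶜ = ∅ := by
      ext y
      simp only [mem_inter_iff, mem_singleton_iff, mem_compl_iff, mem_empty_iff_false, iff_false]
      rintro ⟨rfl, h⟩
      exact h hx
    rw [this, measure_empty]
  · refine measure_mono_null inter_subset_left ?_
    have : ¬ 0 < ρ {x} := hx
    simpa using this

end atoms

end Pool.Agent.U106.FC
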