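import Pool.Agent.U106.FC.Avg

/-!
# The common part of an `S`-invariant and a `T`-invariant measure
-/

set_option autoImplicit false
set_option linter.unusedSectionVars false

open MeasureTheory Filter Topology Set
open scoped ENNReal NNReal

namespace Pool.Agent.U106.FC

variable {X : Type*} [MetricSpace X] [CompactSpace X] [MeasurableSpace X] [BorelSpace X]

theorem avg_apply (S : X → X) (hS : Continuous S) (ν : Measure X) (n : ℕ) {A : Set X}
    (hA : MeasurableSet A) :
    avg S ν n A = ((n + 1 : ℕ) : ℝ≥0∞)⁻¹ * ∑ i ∈ Finset.range (n + 1), ν (S^[i] ⁻¹' A) := by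
  rw [avg, Measure.smul_apply, Measure.finsetSum_apply, smul_eq_mul]
  congr 1
  refine Finset.sum_congr rfl fun i _ => ?_
  rw [Measure.map_apply (hS.iterate i).measurable hA]

/-- A compact null set of the limit has small mass for the averages. -/
theorem small_compact {S : X → X} (hS : Continuous S) {ν ρ : Measure X} [IsProbabilityMeasure ν]
    [IsProbabilityMeasure ρ] {U : Ultrafilter ℕ}
    (h : ∀ F : X → ℝ, Continuous F →
      Tendsto (fun n => ∫ x, F x ∂(avg S ν n)) U (𝓝 (∫ x, F x ∂ρ)))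
    {K : Set X} (hK : IsClosed K) (h0 : ρ K = 0) {ε : ℝ} (hε : 0 < ε) :
    ∀ᶠ n in (U : Filter ℕ), avg S ν n K ≤ ENNReal.ofReal ε := by
  have h1 := tendsto_lintegral_thickenedIndicator_of_isClosed ρ hK
    (δs := fun n : ℕ => 1 / ((n : ℝ) + 1)) (fun n => by positivity)
    tendsto_one_div_add_atTop_nhds_zero_nat
  rw [h0] at h1
  have h2 := (h1.eventually (gt_mem_nhds (show (0 : ℝ≥0∞) < ENNReal.ofReal ε from
    ENNReal.ofReal_pos.2 hε))).exists
  obtain ⟨m, hm⟩ := h2
  set δ : ℝ := 1 / ((m : ℝ) + 1) with hδ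
  have hδ0 : 0 < δ := by positivity
  let F : X → ℝ := fun x => ((thickenedIndicator hδ0 K x : ℝ≥0) : ℝ)
  have hFc : Continuous F := NNReal.continuous_coe.comp (thickenedIndicator hδ0 K).continuous
  have hFi : ∀ κ : Measure X, IsFiniteMeasure κ →
      ∫⁻ x, (thickenedIndicator hδ0 K x : ℝ≥0∞) ∂κ = ENNReal.ofReal (∫ x, F x ∂κ) := by
    intro κ hκ
    rw [ofReal_integral_eq_lintegral_ofReal (integrable_cont hFc)
      (Eventually.of_forall fun x => NNReal.coe_nonneg _)]
    refine lintegral_congr fun x => ?_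
    simp [F]
  have h3 : ∫ x, F x ∂ρ < ε := by
    rw [hFi ρ inferInstance] at hm
    exact (ENNReal.ofReal_lt_ofReal_iff hε).1 hm
  have h4 := (h F hFc).eventually (gt_mem_nhds h3)
  filter_upwards [h4] with n hn
  have := avg_prob hS ν n
  have h5 : avg S ν n K ≤ ∫⁻ x, (thickenedIndicator hδ0 K x : ℝ≥0∞) ∂(avg S ν n) := by
    rw [← lintegral_indicator_one hK.measurableSet]
    refine lintegral_mono fun x => ?_
    by_cases hx : x ∈ K
    · rw [indicator_of_mem hx, thickenedIndicator_one hδ0 K hx]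
      simp
    · rw [indicator_of_notMem hx]
      exact zero_le
  refine h5.trans ?_
  rw [hFi _ inferInstance]
  exact ENNReal.ofReal_le_ofReal hn.le

/-- If `ν' ≤ μ`, `ν' ≤ ν`, `μ` is `S`-invariant and `ρ` is a limit of the averages of `ν`, then
`ν' ≪ ρ`. -/
theorem ac_of_le {S : X → X} (hS : Continuous S) {μ ν ν' ρ : Measure X} [IsProbabilityMeasure μ]
    [IsProbabilityMeasure ν] [IsProbabilityMeasure ρ] (hμ : MeasurePreserving S μ μ)
    (hρ : MeasurePreserving S ρ ρ) {U : Ultrafilter ℕ}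
    (h : ∀ F : X → ℝ, Continuous F →
      Tendsto (fun n => ∫ x, F x ∂(avg S ν n)) U (𝓝 (∫ x, F x ∂ρ)))
    (h1 : ν' ≤ μ) (h2 : ν' ≤ ν) : ν' ≪ ρ := by
  obtain ⟨N, hN, hsN, hρN⟩ := μ.mutuallySingular_singularPart ρ
  -- `N`: null set of the singular part, `ρ Nᶜ = 0`
  have hac : μ.restrict N = ρ.withDensity (μ.rnDeriv ρ) := by
    conv_lhs => rw [← μ.rnDeriv_add_singularPart ρ]
    rw [Measure.restrict_add, (Measure.restrict_eq_zero).2 hsN, add_zero]
    refine Measure.restrict_eq_self_of_ae_mem ?_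
    have h0 : ∀ᵐ x ∂ρ, x ∈ N := by
      rw [ae_iff]
      exact hρN
    exact (withDensity_absolutelyContinuous _ _).ae_le h0
  have hinv : MeasurePreserving S (μ.restrict N) (μ.restrict N) := by
    rw [hac]
    exact hμ.withDensity_rnDeriv hρ
  -- `N` is invariant modulo `μ`
  have hpre : μ (S ⁻¹' Nᶜ ∩ N) = 0 := by
    have h3 := hinv.measure_preimage (s := Nᶜ) hN.compl.nullMeasurableSet
    rw [Measure.restrict_apply (hμ.measurable hN.compl), Measure.restrict_apply hN.compl,
      compl_inter_self, measure_empty] at h3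
    exact h3
  have hae : S ⁻¹' Nᶜ =ᵐ[μ] Nᶜ := by
    have h4 : μ ((S ⁻¹' Nᶜ) \ Nᶜ) = 0 := by
      rw [sdiff_eq, compl_compl]
      exact hpre
    have h5 : μ (Nᶜ) ≤ μ (S ⁻¹' Nᶜ) := (hμ.measure_preimage hN.compl.nullMeasurableSet).ge
    exact ae_eq_of_ae_subset_of_measure_ge (ae_le_set.mpr h4) h5 (hμ.measurable hN.compl).nullMeasurableSet
      (measure_ne_top _ _)
  have hpow : ∀ i : ℕ, S^[i] ⁻¹' Nᶜ =ᵐ[μ] Nᶜ := by
    intro i
    induction i with
    | zero => exact ae_eq_refl _
    | succ i ih =>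
      rw [Function.iterate_succ, preimage_comp]
      exact (hμ.quasiMeasurePreserving.preimage_ae_eq ih).trans hae
  have hν'μ : ν' ≪ μ := Measure.absolutelyContinuous_of_le h1
  have hfin : IsFiniteMeasure ν' := isFiniteMeasure_of_le μ h1
  -- the main step
  have hmain : ν' Nᶜ = 0 := by
    by_contra hne
    have hpos : 0 < (ν' Nᶜ).toReal := ENNReal.toReal_pos hne (measure_ne_top _ _)
    set ε : ℝ := (ν' Nᶜ).toReal / 4 with hε
    have hε0 : 0 < ε := by positivity
    obtain ⟨K, hKN, hK, hKμ⟩ := hN.compl.exists_isClosed_lt_add (μ := μ) (measure_ne_top _ _)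
      (ε := ENNReal.ofReal ε) (by simpa using hε0)
    have hρK : ρ K = 0 := measure_mono_null hKN hρN
    obtain ⟨n, hn⟩ := (small_compact hS h hK hρK hε0).exists
    have h6 : ∀ i : ℕ, ν' Nᶜ ≤ ν (S^[i] ⁻¹' K) + ENNReal.ofReal ε := by
      intro i
      have e1 : ν' Nᶜ = ν' (S^[i] ⁻¹' Nᶜ) := measure_congr (hν'μ.ae_eq (hpow i).symm)
      have e2 : S^[i] ⁻¹' Nᶜ ⊆ S^[i] ⁻¹' K ∪ S^[i] ⁻¹' (Nᶜ \ K) := by
        rw [← preimage_union, union_sdiff_cancel hKN]
      rw [e1]
      refine (measure_mono e2).trans ((measure_union_le _ _).trans ?_)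
      refine add_le_add (h2 _) ((h1 _).trans ?_)
      rw [(hμ.iterate i).measure_preimage (hN.compl.diff hK.measurableSet).nullMeasurableSet]
      rw [measure_sdiff hKN hK.measurableSet.nullMeasurableSet (measure_ne_top _ _)]
      exact tsub_le_iff_left.2 hKμ.le
    have h7 : ν' Nᶜ ≤ avg S ν n K + ENNReal.ofReal ε := by
      rw [avg_apply S hS ν n hK.measurableSet]
      have e3 : ν' Nᶜ = ((n + 1 : ℕ) : ℝ≥0∞)⁻¹ * ∑ i ∈ Finset.range (n + 1), ν' Nᶜ := by
        rw [Finset.sum_const, Finset.card_range, nsmul_eq_mul, ← mul_assoc,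
          ENNReal.inv_mul_cancel (by simp) (ENNReal.natCast_ne_top _), one_mul]
      have e4 : ENNReal.ofReal ε =
          ((n + 1 : ℕ) : ℝ≥0∞)⁻¹ * ∑ i ∈ Finset.range (n + 1), ENNReal.ofReal ε := by
        rw [Finset.sum_const, Finset.card_range, nsmul_eq_mul, ← mul_assoc,
          ENNReal.inv_mul_cancel (by simp) (ENNReal.natCast_ne_top _), one_mul]
      rw [e3]
      conv_rhs => rw [e4]
      rw [← mul_add, ← Finset.sum_add_distrib]
      gcongr with i hi
      exact h6 i
    have h8 : ν' Nᶜ ≤ ENNReal.ofReal ε + ENNReal.ofReal ε :=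
      h7.trans (add_le_add hn le_rfl)
    rw [← ENNReal.ofReal_add hε0.le hε0.le] at h8
    have h9 := ENNReal.toReal_le_of_le_ofReal (by positivity) h8
    linarith
  refine Measure.AbsolutelyContinuous.mk fun A hA hρA => ?_
  have h10 : ν' (A ∩ N) = 0 := by
    refine hν'μ ?_
    have : μ.restrict N A = 0 := by
      rw [hac]
      exact withDensity_absolutelyContinuous _ _ hρA
    rwa [Measure.restrict_apply hA] at this
  have h11 : ν' (A ∩ Nᶜ) = 0 := measure_mono_null inter_subset_right hmain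
  have : ν' A ≤ ν' (A ∩ N) + ν' (A ∩ Nᶜ) := by
    conv_lhs => rw [← inter_union_compl A N]
    exact measure_union_le _ _
  rw [h10, h11, add_zero] at this
  exact le_antisymm this zero_le

/-- **The common part.**  Whatever is absolutely continuous with respect to the `S`-invariant
measure `μ` and with respect to the `T`-invariant measure `ν` is absolutely continuous with respect
to one `S`- and `T`-invariant measure `ρ`. -/
theorem common {S T : X → X} (hS : Continuous S) (hT : Continuous T)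
    (hST : ∀ x, S (T x) = T (S x)) (μ ν : Measure X) [IsProbabilityMeasure μ]
    [IsProbabilityMeasure ν] (hμ : MeasurePreserving S μ μ) (hν : MeasurePreserving T ν ν) :
    ∃ ρ : Measure X, IsProbabilityMeasure ρ ∧ MeasurePreserving S ρ ρ ∧ MeasurePreserving T ρ ρ ∧
      ∀ κ : Measure X, κ ≪ μ → κ ≪ ν → κ ≪ ρ := by
  obtain ⟨ρ, U, hρ, hU, hρS, hρT, hlim⟩ := exists_limit hS hT hST ν hν
  refine ⟨ρ, hρ, hρS, hρT, fun κ hκμ hκν => ?_⟩
  set f := ν.rnDeriv μ with hf
  have hfm : Measurable f := Measure.measurable_rnDeriv ν μ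
  set ν' : Measure X := μ.withDensity (fun x => min (f x) 1) with hν'
  have hle1 : ν' ≤ μ := by
    have : ν' ≤ μ.withDensity 1 := withDensity_mono (Eventually.of_forall fun x => min_le_right _ _)
    rwa [withDensity_one] at this
  have hle2' : ν' ≤ μ.withDensity f :=
    withDensity_mono (Eventually.of_forall fun x => min_le_left _ _)
  have hle2 : ν' ≤ ν := hle2'.trans (Measure.withDensity_rnDeriv_le ν μ)
  have hac := ac_of_le hS hμ hρS hlim hle1 hle2
  have hfac : μ.withDensity f ≪ ν' := by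
    refine Measure.AbsolutelyContinuous.mk fun A hA h0 => ?_
    rw [hν', withDensity_apply_eq_zero (hfm.min measurable_const)] at h0
    rw [withDensity_apply_eq_zero hfm]
    refine measure_mono_null ?_ h0
    rintro x ⟨hx1, hx2⟩
    refine ⟨?_, hx2⟩
    simp only [mem_ofPred_eq] at hx1 ⊢
    intro h
    rcases min_eq_iff.1 h with h | h
    · exact hx1 h.1
    · exact one_ne_zero h.1
  obtain ⟨s, hs, hss, hμs⟩ := ν.mutuallySingular_singularPart μ
  refine Measure.AbsolutelyContinuous.mk fun A hA hρA => ?_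
  have h1 : κ sᶜ = 0 := hκμ hμs
  have h2 : κ (A ∩ s) = 0 := by
    refine hκν ?_
    have e : ν (A ∩ s) = (μ.withDensity f) (A ∩ s) + ν.singularPart μ (A ∩ s) := by
      conv_lhs => rw [← ν.rnDeriv_add_singularPart μ]
      rfl
    rw [e, measure_mono_null inter_subset_right hss, add_zero]
    exact measure_mono_null inter_subset_left (hfac.trans hac hρA)
  have : κ A ≤ κ (A ∩ s) + κ sᶜ := by
    refine (measure_mono ?_).trans (measure_union_le _ _)
    intro x hx
    by_cases hxs : x ∈ s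
    · exact Or.inl ⟨hx, hxs⟩
    · exact Or.inr hxs
  rw [h1, h2, add_zero] at this
  exact le_antisymm this zero_le

end Pool.Agent.U106.FC
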