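import Pool.Agent.U106.FC.Circle

/-!
# Furstenberg's conjecture and the mutual singularity of `×p`- and `×q`-invariant measures
-/

set_option autoImplicit false
set_option linter.unusedSectionVars false

open MeasureTheory Filter Topology Set
open scoped ENNReal NNReal

namespace Pool.Agent.U106.FC

/-- Furstenberg's conjecture for `p, q`: every atomless probability measure on the circle invariant
under `x ↦ p x` and `x ↦ q x` is Lebesgue measure. -/
def Rigid (p q : ℕ) : Prop :=
  ∀ μ : Measure UnitAddCircle, IsProbabilityMeasure μ → (∀ x, μ {x} = 0) →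
    MeasurePreserving (fun x : UnitAddCircle => p • x) μ μ →
    MeasurePreserving (fun x : UnitAddCircle => q • x) μ μ → μ = volume

/-- Every atomless `×p`-invariant probability measure which is singular to Lebesgue measure is
singular to every `×q`-invariant probability measure. -/
def Singular (p q : ℕ) : Prop :=
  ∀ μ ν : Measure UnitAddCircle, IsProbabilityMeasure μ → IsProbabilityMeasure ν →
    (∀ x, μ {x} = 0) → μ ⟂ₘ volume →
    MeasurePreserving (fun x : UnitAddCircle => p • x) μ μ →
    MeasurePreserving (fun x : UnitAddCircle => q • x) ν ν → μ ⟂ₘ ν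

theorem singular_of_ac_zero {X : Type*} [MeasurableSpace X] {μ ν : Measure X}
    [IsFiniteMeasure μ] [IsFiniteMeasure ν]
    (h : μ.withDensity (ν.rnDeriv μ) = 0) : μ ⟂ₘ ν := by
  have h4 : ν = ν.singularPart μ := by
    conv_lhs => rw [← ν.rnDeriv_add_singularPart μ, h, zero_add]
  rw [h4]
  exact (Measure.mutuallySingular_singularPart ν μ).symm

theorem normalize_mp {R : UnitAddCircle → UnitAddCircle} {ρ : Measure UnitAddCircle}
    (h : MeasurePreserving R ρ ρ) (c : ℝ≥0∞) : MeasurePreserving R (c • ρ) (c • ρ) := by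
  refine ⟨h.measurable, ?_⟩
  rw [Measure.map_smul, h.map_eq]

theorem normalize_prob {ρ : Measure UnitAddCircle} [IsFiniteMeasure ρ] (h : ρ ≠ 0) :
    IsProbabilityMeasure ((ρ univ)⁻¹ • ρ) := by
  constructor
  rw [Measure.smul_apply, smul_eq_mul]
  exact ENNReal.inv_mul_cancel (by simpa using h) (measure_ne_top _ _)

theorem unnormalize {ρ σ : Measure UnitAddCircle} [IsFiniteMeasure ρ] (h : ρ ≠ 0)
    (he : (ρ univ)⁻¹ • ρ = σ) : ρ = ρ univ • σ := by
  rw [← he, smul_smul, ENNReal.mul_inv_cancel (by simpa using h) (measure_ne_top _ _), one_smul]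

theorem singular_of_rigid {p q : ℕ} (h : Rigid p q) : Singular p q := by
  intro μ ν hμ hν hat hs hp hq
  obtain ⟨ρ, hρ, hρp, hρq, hκ⟩ := common (cont_mul p) (cont_mul q) (mul_comm' p q) μ ν hp hq
  refine singular_of_ac_zero ?_
  set κ := μ.withDensity (ν.rnDeriv μ) with hκdef
  have hκμ : κ ≪ μ := withDensity_absolutelyContinuous _ _
  have hκν : κ ≪ ν := Measure.absolutelyContinuous_of_le (Measure.withDensity_rnDeriv_le ν μ)
  have hκρ : κ ≪ ρ := hκ κ hκμ hκν
  have hD : (atoms ρ).Countable := atoms_countable ρ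
  have hDm : MeasurableSet (atoms ρ) := hD.measurableSet
  have hμD : μ (atoms ρ) = 0 := by
    rw [← biUnion_of_singleton (atoms ρ)]
    exact (measure_biUnion_null_iff hD).2 fun x _ => hat x
  have hκD : κ (atoms ρ) = 0 := hκμ hμD
  -- the atomless part
  set ρc := ρ.restrict (atoms ρ)ᶜ with hρc
  have hac : κ ≪ volume := by
    by_cases h0 : ρc = 0
    · have h1 : ρ (atoms ρ)ᶜ = 0 := Measure.restrict_eq_zero.1 h0
      have h2 : κ (atoms ρ)ᶜ = 0 := hκρ h1
      refine Measure.AbsolutelyContinuous.mk fun A _ _ => ?_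
      have : κ A ≤ κ (atoms ρ) + κ (atoms ρ)ᶜ := by
        refine (measure_mono ?_).trans (measure_union_le _ _)
        rw [union_compl_self]
        exact subset_univ _
      rw [hκD, h2, add_zero] at this
      exact le_antisymm this zero_le
    · have h1 := normalize_prob h0
      have h2 := h _ h1 (fun x => by
        rw [Measure.smul_apply, hρc, restrict_atomless, smul_zero])
        (normalize_mp (atomless_part hρp) _) (normalize_mp (atomless_part hρq) _)
      have h3 := unnormalize h0 h2
      refine Measure.AbsolutelyContinuous.mk fun A hA hvA => ?_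
      have h4 : ρc A = 0 := by
        rw [h3, Measure.smul_apply, hvA, smul_zero]
      rw [hρc, Measure.restrict_apply hA] at h4
      have h5 : κ (A ∩ (atoms ρ)ᶜ) = 0 := hκρ h4
      have : κ A ≤ κ (A ∩ (atoms ρ)ᶜ) + κ (atoms ρ) := by
        refine (measure_mono ?_).trans (measure_union_le _ _)
        intro x hx
        by_cases hxs : x ∈ atoms ρ
        · exact Or.inr hxs
        · exact Or.inl ⟨hx, hxs⟩
      rw [h5, hκD, add_zero] at this
      exact le_antisymm this zero_le
  have h3 : κ ⟂ₘ κ := hs.mono_ac hκμ hac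
  exact Measure.MutuallySingular.self_iff _ |>.1 h3

theorem rigid_of_singular {p q : ℕ} (hp2 : 2 ≤ p) (hq1 : 1 ≤ q) (h : Singular p q) :
    Rigid p q := by
  intro μ hμ hat hp hq
  have hac : μ ≪ volume := by
    rw [← Measure.singularPart_eq_zero]
    by_contra h0
    set σ := μ.singularPart volume with hσ
    have hσle : σ ≤ μ := Measure.singularPart_le μ volume
    have hσp : MeasurePreserving (mul p) σ σ := hp.singularPart (mp_vol (by omega))
    have hσq : MeasurePreserving (mul q) σ σ := hq.singularPart (mp_vol hq1)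
    have h1 := normalize_prob h0
    have hσv : σ ⟂ₘ volume := Measure.mutuallySingular_singularPart μ volume
    have h2 := h _ _ h1 h1 (fun x => by
      rw [Measure.smul_apply, le_antisymm ((hσle _).trans_eq (hat x)) zero_le, smul_zero])
      (hσv.smul _) (normalize_mp hσp _) (normalize_mp hσq _)
    have h3 := Measure.MutuallySingular.self_iff _ |>.1 h2
    have := h1.measure_univ
    rw [h3] at this
    simp at this
  have hv : IsProbabilityMeasure (volume : Measure UnitAddCircle) := ⟨UnitAddCircle.measure_univ⟩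
  have he : Ergodic (fun x : UnitAddCircle => p • x) volume :=
    AddCircle.ergodic_nsmul (T := 1) (by omega : 1 < p)
  exact he.eq_of_absolutelyContinuous hp hac

section powers

variable {m : ℕ}

theorem avg_inv {μ : Measure UnitAddCircle} {k : ℕ}
    (h : μ.map ((mul m)^[k + 1]) = μ) :
    MeasurePreserving (mul m) (avg (mul m) μ k) (avg (mul m) μ k) := by
  refine ⟨(cont_mul m).measurable, ?_⟩
  have hmap : ∀ i, (μ.map ((mul m)^[i])).map (mul m) = μ.map ((mul m)^[i + 1]) := by
    intro i
    rw [Measure.map_map (cont_mul m).measurable ((cont_mul m).iterate i).measurable,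
      Function.iterate_succ']
  have hsum : ∀ (s : Finset ℕ) (f : ℕ → Measure UnitAddCircle),
      (∑ i ∈ s, f i).map (mul m) = ∑ i ∈ s, (f i).map (mul m) := by
    intro s f
    induction s using Finset.cons_induction with
    | empty => simp
    | cons a s ha ih => rw [Finset.sum_cons, Finset.sum_cons, Measure.map_add _ _ (cont_mul m).measurable, ih]
  rw [avg, Measure.map_smul, hsum]
  congr 1
  simp only [hmap]
  rw [Finset.sum_range_succ (fun i => μ.map ((mul m)^[i + 1])),
    Finset.sum_range_succ' (fun i => μ.map ((mul m)^[i])), h]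
  simp

theorem ac_avg {μ : Measure UnitAddCircle} (k : ℕ) : μ ≪ avg (mul m) μ k := by
  refine Measure.AbsolutelyContinuous.mk fun A hA h0 => ?_
  rw [avg_apply _ (cont_mul m) _ _ hA, mul_eq_zero] at h0
  rcases h0 with h0 | h0
  · simp at h0
  · have := (Finset.sum_eq_zero_iff.1 h0) 0 (by simp)
    simpa using this

theorem avg_atomless (hm : 1 ≤ m) {μ : Measure UnitAddCircle} (h : ∀ x, μ {x} = 0) (k : ℕ)
    (x : UnitAddCircle) : avg (mul m) μ k {x} = 0 := by
  rw [avg_apply _ (cont_mul m) _ _ (measurableSet_singleton x), Finset.sum_eq_zero, mul_zero]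
  intro i _
  have := atomless_map (m := m ^ i) (Nat.one_le_pow _ _ hm) h x
  rwa [← mul_iter, Measure.map_apply ((cont_mul m).iterate i).measurable
    (measurableSet_singleton x)] at this

theorem avg_singular (hm : 1 ≤ m) {μ : Measure UnitAddCircle} [IsFiniteMeasure μ]
    (h : μ ⟂ₘ volume) (k : ℕ) : avg (mul m) μ k ⟂ₘ volume := by
  rw [avg]
  refine Measure.MutuallySingular.smul _ ?_
  have : ∀ s : Finset ℕ, (∑ i ∈ s, μ.map ((mul m)^[i])) ⟂ₘ volume := by
    intro s
    induction s using Finset.cons_induction with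
    | empty => simp
    | cons a s ha ih =>
      rw [Finset.sum_cons]
      refine Measure.MutuallySingular.add_left ?_ ih
      rw [mul_iter]
      exact singular_map (Nat.one_le_pow _ _ hm) h
  exact this _

end powers

theorem singular_pow {p q : ℕ} (hp : 1 ≤ p) (h : Singular p q) {k l : ℕ} (hk : 1 ≤ k)
    (hl : 1 ≤ l) : Singular (p ^ k) (q ^ l) := by
  intro μ ν hμ hν hat hs hμp hνq
  obtain ⟨k, rfl⟩ : ∃ j, k = j + 1 := ⟨k - 1, by omega⟩
  obtain ⟨l, rfl⟩ : ∃ j, l = j + 1 := ⟨l - 1, by omega⟩
  have h1 : μ.map ((mul p)^[k + 1]) = μ := by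
    rw [mul_iter]
    exact hμp.map_eq
  have h2 : ν.map ((mul q)^[l + 1]) = ν := by
    rw [mul_iter]
    exact hνq.map_eq
  have h3 := h (avg (mul p) μ k) (avg (mul q) ν l) (avg_prob (cont_mul p) μ k)
    (avg_prob (cont_mul q) ν l) (avg_atomless hp hat k) (avg_singular hp hs k)
    (avg_inv h1) (avg_inv h2)
  exact h3.mono_ac (ac_avg k) (ac_avg l)

theorem rigid_of_pow {p q k l : ℕ} (h : Rigid (p ^ k) (q ^ l)) : Rigid p q := by
  intro μ hμ hat hp hq
  refine h μ hμ hat ?_ ?_
  · have := (show MeasurePreserving (mul p) μ μ from hp).iterate k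
    rwa [mul_iter] at this
  · have := (show MeasurePreserving (mul q) μ μ from hq).iterate l
    rwa [mul_iter] at this

theorem tfae {p q : ℕ} (hp : 2 ≤ p) (hq : 2 ≤ q) :
    List.TFAE [Rigid p q, Singular p q, ∀ k l : ℕ, 1 ≤ k → 1 ≤ l → Singular (p ^ k) (q ^ l),
      ∀ k l : ℕ, 1 ≤ k → 1 ≤ l → Rigid (p ^ k) (q ^ l),
      ∃ k l : ℕ, 1 ≤ k ∧ 1 ≤ l ∧ Rigid (p ^ k) (q ^ l)] := by
  tfae_have 1 → 2 := singular_of_rigid
  tfae_have 2 → 3 := fun h k l hk hl => singular_pow (by omega) h hk hl
  tfae_have 3 → 4 := fun h k l hk hl => rigid_of_singular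
    (le_trans hp (Nat.le_self_pow (by omega) p)) (Nat.one_le_pow _ _ (by omega)) (h k l hk hl)
  tfae_have 4 → 5 := fun h => ⟨1, 1, le_rfl, le_rfl, h 1 1 le_rfl le_rfl⟩
  tfae_have 5 → 1 := fun ⟨k, l, _, _, h⟩ => rigid_of_pow h
  tfae_finish

end Pool.Agent.U106.FC
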