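import Pool.Agent.U106.FC.Common

/-!
# Ergodic measures which are not singular to an invariant measure of a commuting map
-/

set_option autoImplicit false
set_option linter.unusedSectionVars false

open MeasureTheory Filter Topology Set
open scoped ENNReal NNReal

namespace Pool.Agent.U106.FC

variable {X : Type*} [MetricSpace X] [CompactSpace X] [MeasurableSpace X] [BorelSpace X]

/-- An invariant measure which is not singular to an ergodic measure dominates a multiple of it. -/
theorem smul_le_of_erg {S : X → X} {μ ρ : Measure X} [IsProbabilityMeasure μ]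
    [IsProbabilityMeasure ρ] (hμ : Ergodic S μ) (hρ : MeasurePreserving S ρ ρ)
    (h : ¬ μ ⟂ₘ ρ) : ∃ c : ℝ≥0∞, c ≠ 0 ∧ c • μ ≤ ρ := by
  have h1 := hρ.withDensity_rnDeriv hμ.toMeasurePreserving
  have hle : μ.withDensity (ρ.rnDeriv μ) ≤ ρ := Measure.withDensity_rnDeriv_le ρ μ
  have hfin : IsFiniteMeasure (μ.withDensity (ρ.rnDeriv μ)) := isFiniteMeasure_of_le ρ hle
  obtain ⟨c, hc⟩ := hμ.eq_smul_of_absolutelyContinuous h1 (withDensity_absolutelyContinuous _ _)
  refine ⟨c, ?_, hc ▸ hle⟩
  rintro rfl
  apply h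
  have h2 : ρ = ρ.singularPart μ := by
    conv_lhs => rw [← ρ.rnDeriv_add_singularPart μ, hc]
    simp
  rw [h2]
  exact (Measure.mutuallySingular_singularPart ρ μ).symm

theorem eq_or_singular {S : X → X} {μ ρ : Measure X} [IsProbabilityMeasure μ]
    [IsProbabilityMeasure ρ] (hμ : Ergodic S μ) (hρ : Ergodic S ρ) (h : μ ≠ ρ) : μ ⟂ₘ ρ := by
  by_contra hne
  obtain ⟨c, hc, hle⟩ := smul_le_of_erg hμ hρ.toMeasurePreserving hne
  apply h
  refine hρ.eq_of_absolutelyContinuous hμ.toMeasurePreserving ?_
  have : c • μ ≪ ρ := Measure.absolutelyContinuous_of_le hle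
  exact (Measure.absolutelyContinuous_smul hc).trans this

theorem add_le_of_singular {m₁ m₂ ρ : Measure X} (h1 : m₁ ≤ ρ) (h2 : m₂ ≤ ρ) (h : m₁ ⟂ₘ m₂) :
    m₁ + m₂ ≤ ρ := by
  obtain ⟨s, hs, h3, h4⟩ := h
  refine Measure.le_iff.2 fun A hA => ?_
  rw [Measure.add_apply]
  have e1 : m₁ A ≤ ρ (A \ s) := by
    have : m₁ A ≤ m₁ (A ∩ s) + m₁ (A \ s) := by
      conv_lhs => rw [← inter_union_sdiff A s]
      exact measure_union_le _ _
    rw [measure_mono_null inter_subset_right h3, zero_add] at this
    exact this.trans (h1 _)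
  have e2 : m₂ A ≤ ρ (A ∩ s) := by
    have : m₂ A ≤ m₂ (A ∩ s) + m₂ (A \ s) := by
      conv_lhs => rw [← inter_union_sdiff A s]
      exact measure_union_le _ _
    rw [measure_mono_null (show A \ s ⊆ sᶜ from fun x hx => hx.2) h4, add_zero] at this
    exact this.trans (h2 _)
  calc m₁ A + m₂ A ≤ ρ (A \ s) + ρ (A ∩ s) := add_le_add e1 e2
    _ = ρ A := by rw [add_comm]; exact measure_inter_add_sdiff A hs

/-- The weight of an ergodic measure in an invariant measure. -/
theorem exists_weight {S : X → X} {μ ρ : Measure X} [IsProbabilityMeasure μ]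
    [IsProbabilityMeasure ρ] (hμ : Ergodic S μ) (hρ : MeasurePreserving S ρ ρ) :
    ∃ c : ℝ≥0∞, c • μ ≤ ρ ∧ ∀ c' : ℝ≥0∞, c' • μ ≤ ρ → c' ≤ c := by
  have h1 := hρ.withDensity_rnDeriv hμ.toMeasurePreserving
  have hle : μ.withDensity (ρ.rnDeriv μ) ≤ ρ := Measure.withDensity_rnDeriv_le ρ μ
  have hfin : IsFiniteMeasure (μ.withDensity (ρ.rnDeriv μ)) := isFiniteMeasure_of_le ρ hle
  obtain ⟨c, hc⟩ := hμ.eq_smul_of_absolutelyContinuous h1 (withDensity_absolutelyContinuous _ _)
  refine ⟨c, hc ▸ hle, fun c' hc' => ?_⟩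
  obtain ⟨s, hs, h2, h3⟩ := ρ.mutuallySingular_singularPart μ
  have h4 : μ s = 1 := by
    have := prob_compl_eq_zero_iff (μ := μ) hs
    exact this.1 h3
  have h5 : ρ s = c := by
    conv_lhs => rw [← ρ.rnDeriv_add_singularPart μ, hc]
    rw [Measure.add_apply, h2, add_zero, Measure.smul_apply, h4, smul_eq_mul, mul_one]
  have h6 := Measure.le_iff.1 hc' s hs
  rwa [Measure.smul_apply, h4, smul_eq_mul, mul_one, h5] at h6

/-- **Ergodic measures.**  If the ergodic `S`-invariant measure `μ` is not singular to some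
`T`-invariant measure, then it is invariant under a power of `T`. -/
theorem ergodic_common {S T : X → X} (hS : Continuous S) (hT : Continuous T)
    (hST : ∀ x, S (T x) = T (S x)) (μ ν : Measure X) [IsProbabilityMeasure μ]
    [IsProbabilityMeasure ν] (hμ : Ergodic S μ) (hν : MeasurePreserving T ν ν)
    (h : ¬ μ ⟂ₘ ν) : ∃ k : ℕ, 1 ≤ k ∧ MeasurePreserving (T^[k]) μ μ := by
  obtain ⟨ρ, hρ, hρS, hρT, hκ⟩ := common hS hT hST μ ν hμ.toMeasurePreserving hν
  -- `μ` is not singular to `ρ`
  have hns : ¬ μ ⟂ₘ ρ := by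
    intro hs
    apply h
    have h1 : μ.withDensity (ν.rnDeriv μ) ≪ ρ := by
      refine hκ _ (withDensity_absolutelyContinuous _ _) ?_
      exact Measure.absolutelyContinuous_of_le (Measure.withDensity_rnDeriv_le ν μ)
    have h2 : μ.withDensity (ν.rnDeriv μ) = 0 := by
      have h3 : (μ.withDensity (ν.rnDeriv μ)) ⟂ₘ (μ.withDensity (ν.rnDeriv μ)) :=
        hs.mono_ac (withDensity_absolutelyContinuous _ _) h1
      exact Measure.MutuallySingular.self_iff _ |>.1 h3
    have h4 : ν = ν.singularPart μ := by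
      conv_lhs => rw [← ν.rnDeriv_add_singularPart μ, h2, zero_add]
    rw [h4]
    exact (Measure.mutuallySingular_singularPart ν μ).symm
  obtain ⟨c, hc, hle⟩ := smul_le_of_erg hμ hρS hns
  have hcomm : ∀ i x, S (T^[i] x) = T^[i] (S x) := by
    intro i
    induction i with
    | zero => intro x; rfl
    | succ i ih =>
      intro x
      rw [Function.iterate_succ_apply, ih, hST, Function.iterate_succ_apply]
  have hprob : ∀ i, IsProbabilityMeasure (μ.map (T^[i])) := fun i =>
    Measure.isProbabilityMeasure_map (hT.iterate i).measurable.aemeasurable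
  have herg : ∀ i, Ergodic S (μ.map (T^[i])) := by
    intro i
    have hmp : MeasurePreserving (T^[i]) μ (μ.map (T^[i])) := ⟨(hT.iterate i).measurable, rfl⟩
    exact hmp.ergodic_of_ergodic_semiconj hμ hS.measurable (fun x => (hcomm i x).symm)
  have hmap : ∀ i, (μ.map (T^[i])).map T = μ.map (T^[i + 1]) := by
    intro i
    rw [Measure.map_map hT.measurable (hT.iterate i).measurable, Function.iterate_succ']
  have hle' : ∀ i, c • μ.map (T^[i]) ≤ ρ := by
    intro i
    have h1 : (c • μ).map (T^[i]) ≤ ρ.map (T^[i]) :=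
      Measure.map_mono hle (hT.iterate i).measurable
    rwa [Measure.map_smul, (hρT.iterate i).map_eq] at h1
  -- eventual periodicity
  have hper : ∃ n k : ℕ, 1 ≤ k ∧ μ.map (T^[n + k]) = μ.map (T^[n]) := by
    by_contra hcon
    push Not at hcon
    have hne : ∀ i j, i < j → μ.map (T^[i]) ≠ μ.map (T^[j]) := by
      intro i j hij he
      have := hcon i (j - i) (by omega)
      rw [show i + (j - i) = j by omega] at this
      exact this he.symm
    have hsum : ∀ n : ℕ, ∑ i ∈ Finset.range n, c • μ.map (T^[i]) ≤ ρ := by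
      intro n
      induction n with
      | zero =>
        rw [Finset.range_zero, Finset.sum_empty]
        exact Measure.zero_le ρ
      | succ n ih =>
        rw [Finset.sum_range_succ]
        refine add_le_of_singular ih (hle' n) ?_
        have : ∀ m ≤ n, (∑ i ∈ Finset.range m, c • μ.map (T^[i])) ⟂ₘ (c • μ.map (T^[n])) := by
          intro m
          induction m with
          | zero => intro _; simp
          | succ m ihm =>
            intro hm
            rw [Finset.sum_range_succ]
            refine (ihm (by omega)).add_left ?_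
            exact ((eq_or_singular (herg m) (herg n) (hne m n (by omega))).smul c).symm.smul c |>.symm
        exact this n le_rfl
    have hbound : ∀ n : ℕ, (n : ℝ≥0∞) * c ≤ 1 := by
      intro n
      have h1 := Measure.le_iff.1 (hsum n) univ MeasurableSet.univ
      rw [Measure.finsetSum_apply, measure_univ] at h1
      have h2 : ∀ i ∈ Finset.range n, (c • μ.map (T^[i])) univ = c := by
        intro i _
        have := hprob i
        rw [Measure.smul_apply, measure_univ, smul_eq_mul, mul_one]
      rwa [Finset.sum_congr rfl h2, Finset.sum_const, Finset.card_range, nsmul_eq_mul] at h1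
    obtain ⟨n, hn⟩ := ENNReal.exists_nat_mul_gt hc ENNReal.one_ne_top
    exact absurd (hbound n) (not_le.2 hn)
  -- the weights
  have hw : ∀ i, ∃ w : ℝ≥0∞, w • μ.map (T^[i]) ≤ ρ ∧
      ∀ c' : ℝ≥0∞, c' • μ.map (T^[i]) ≤ ρ → c' ≤ w := fun i => by
    have := hprob i
    exact exists_weight (herg i) hρS
  choose w hw1 hw2 using hw
  have hstep : ∀ i, w i ≤ w (i + 1) := by
    intro i
    refine hw2 (i + 1) _ ?_
    have h1 : (w i • μ.map (T^[i])).map T ≤ ρ.map T := Measure.map_mono (hw1 i) hT.measurable
    rwa [Measure.map_smul, hρT.map_eq, hmap] at h1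
  have hmono : Monotone w := monotone_nat_of_le_succ hstep
  have hfin : ∀ i, w i ≠ ∞ := by
    intro i
    have := hprob i
    have h1 := Measure.le_iff.1 (hw1 i) univ MeasurableSet.univ
    rw [Measure.smul_apply, measure_univ, measure_univ, smul_eq_mul, mul_one] at h1
    exact ne_top_of_le_ne_top ENNReal.one_ne_top h1
  have hweq : ∀ i j, μ.map (T^[i]) = μ.map (T^[j]) → w i ≤ w j := by
    intro i j hij
    refine hw2 j _ ?_
    rw [← hij]
    exact hw1 i
  classical
  set n := Nat.find hper with hn
  obtain ⟨k, hk, hkn⟩ := Nat.find_spec hper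
  rw [← hn] at hkn
  rcases Nat.eq_zero_or_pos n with h0 | hpos
  · refine ⟨k, hk, (hT.iterate k).measurable, ?_⟩
    rw [h0, zero_add, Function.iterate_zero, Measure.map_id] at hkn
    exact hkn
  · exfalso
    obtain ⟨m, hm⟩ : ∃ m, n = m + 1 := ⟨n - 1, by omega⟩
    have hne : μ.map (T^[m]) ≠ μ.map (T^[m + k]) := by
      intro he
      exact Nat.find_min hper (show m < Nat.find hper by omega) ⟨k, hk, he.symm⟩
    have hsing : (w m • μ.map (T^[m])) ⟂ₘ (w (m + k) • μ.map (T^[m + k])) := by
      have h1 := hprob m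
      have h2 := hprob (m + k)
      exact ((eq_or_singular (herg m) (herg (m + k)) hne).smul (w m)).symm.smul (w (m + k)) |>.symm
    have hadd := add_le_of_singular (hw1 m) (hw1 (m + k)) hsing
    have h1 := Measure.map_mono hadd hT.measurable
    rw [Measure.map_add _ _ hT.measurable, Measure.map_smul, Measure.map_smul, hρT.map_eq, hmap,
      hmap] at h1
    have e1 : m + k + 1 = n + k := by omega
    rw [e1, hkn, hm, ← add_smul] at h1
    have h2 := hw2 (m + 1) _ h1
    have h3 : w (m + 1) ≤ w (m + k) := hmono (by omega)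
    have h4 : w m + w (m + 1) ≤ w (m + 1) := (add_le_add le_rfl h3).trans h2
    have h5 : w m = 0 := by
      by_contra h0
      have := ENNReal.lt_add_right (hfin (m + 1)) h0
      rw [add_comm (w (m + 1)) (w m)] at this
      exact absurd h4 (not_le.2 this)
    have h6 : c ≤ w m := hw2 m c (hle' m)
    rw [h5] at h6
    exact hc (le_antisymm h6 zero_le)

end Pool.Agent.U106.FC
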