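import Pool.Agent.U106.FC.Wiener

/-!
# The exceptional ergodic measures accumulate at Lebesgue measure
-/

set_option autoImplicit false
set_option linter.unusedSectionVars false

open MeasureTheory Filter Topology Set
open scoped ENNReal NNReal

namespace Pool.Agent.U106.FC

/-- `μ` is an exceptional ergodic measure: an atomless probability measure on the circle, invariant
under `x ↦ p x` and `x ↦ q x`, ergodic for the joint action and different from Lebesgue measure. -/
def Exceptional (p q : ℕ) (μ : Measure UnitAddCircle) : Prop :=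
  IsProbabilityMeasure μ ∧ (∀ x, μ {x} = 0) ∧
    MeasurePreserving (fun x : UnitAddCircle => p • x) μ μ ∧
    MeasurePreserving (fun x : UnitAddCircle => q • x) μ μ ∧
    (∀ E : Set UnitAddCircle, MeasurableSet E → (fun x : UnitAddCircle => p • x) ⁻¹' E = E →
      (fun x : UnitAddCircle => q • x) ⁻¹' E = E → μ E = 0 ∨ μ E = 1) ∧
    μ ≠ volume

theorem mp_map {m n : ℕ} {μ : Measure UnitAddCircle} (h : MeasurePreserving (mul n) μ μ) :
    MeasurePreserving (mul n) (μ.map (mul m)) (μ.map (mul m)) := by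
  refine ⟨(cont_mul n).measurable, ?_⟩
  rw [Measure.map_map (cont_mul n).measurable (cont_mul m).measurable]
  conv_rhs => rw [← h.map_eq]
  rw [Measure.map_map (cont_mul m).measurable (cont_mul n).measurable]
  congr 1
  funext x
  exact mul_comm' n m x

/-- Only Lebesgue measure has the image Lebesgue measure. -/
theorem eq_vol_of_map {p m : ℕ} (hp : 2 ≤ p) (hm : 1 ≤ m) {μ : Measure UnitAddCircle}
    [IsProbabilityMeasure μ] (hμ : MeasurePreserving (mul p) μ μ)
    (h : μ.map (mul m) = volume) : μ = volume := by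
  have hv : IsProbabilityMeasure (volume : Measure UnitAddCircle) := ⟨UnitAddCircle.measure_univ⟩
  have he : Ergodic (fun x : UnitAddCircle => p • x) volume :=
    AddCircle.ergodic_nsmul (T := 1) (by omega : 1 < p)
  refine he.eq_of_absolutelyContinuous hμ ?_
  refine Measure.AbsolutelyContinuous.mk fun A hA h0 => ?_
  by_contra hne
  obtain ⟨K, hKA, hK, hpos⟩ := hA.exists_lt_isCompact (μ := μ) (pos_iff_ne_zero.2 hne)
  have h1 : μ K ≤ μ (mul m ⁻¹' (mul m '' K)) := measure_mono (subset_preimage_image _ _)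
  have hKc : MeasurableSet (mul m '' K) := (hK.image (cont_mul m)).isClosed.measurableSet
  rw [← Measure.map_apply (cont_mul m).measurable hKc, h,
    image_null hm hK (measure_mono_null hKA h0)] at h1
  exact absurd hpos (not_lt.2 h1)

theorem exceptional_map {p q m : ℕ} (hp : 2 ≤ p) (hm : 1 ≤ m) {μ : Measure UnitAddCircle}
    (h : Exceptional p q μ) : Exceptional p q (μ.map (mul m)) := by
  obtain ⟨h1, h2, h3, h4, h5, h6⟩ := h
  refine ⟨Measure.isProbabilityMeasure_map (cont_mul m).measurable.aemeasurable,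
    atomless_map hm h2, mp_map h3, mp_map h4, ?_, fun h => h6 (eq_vol_of_map hp hm h3 h)⟩
  intro E hE hEp hEq
  rw [Measure.map_apply (cont_mul m).measurable hE]
  have hcomm : ∀ n : ℕ, (fun x : UnitAddCircle => n • x) ⁻¹' E = E →
      (fun x : UnitAddCircle => n • x) ⁻¹' (mul m ⁻¹' E) = mul m ⁻¹' E := by
    intro n hn
    ext x
    have e : mul m (n • x) = n • mul m x := by
      simp only [mul, smul_smul, Nat.mul_comm]
    simp only [mem_preimage, e]
    change n • mul m x ∈ E ↔ mul m x ∈ E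
    conv_rhs => rw [← hn]
    rfl
  exact h5 _ ((cont_mul m).measurable hE) (hcomm p hEp) (hcomm q hEq)

/-- For an atomless measure the multiples `m k` with a large Fourier coefficient, `1 ≤ k ≤ K`, are
rare. -/
theorem density {μ : Measure UnitAddCircle} [IsProbabilityMeasure μ] (h : ∀ x, μ {x} = 0)
    (K : ℕ) {ε : ℝ} (hε : 0 < ε) :
    Tendsto (fun N : ℕ => (N : ℝ)⁻¹ * (({m : ℕ | m < N ∧
      ∃ k : ℕ, 1 ≤ k ∧ k ≤ K ∧ ε ≤ ‖co μ (m * k : ℕ)‖}.ncard : ℕ) : ℝ)) atTop (𝓝 0) := by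
  have hk : ∀ k ∈ Finset.Icc 1 K, Tendsto (fun N : ℕ => (ε ^ 2)⁻¹ * ((N : ℝ)⁻¹ *
      ∑ m ∈ Finset.range N, ‖co (μ.map (mul k)) m‖ ^ 2)) atTop (𝓝 0) := by
    intro k hk
    have h1 : 1 ≤ k := (Finset.mem_Icc.1 hk).1
    have hprob : IsProbabilityMeasure (μ.map (mul k)) :=
      Measure.isProbabilityMeasure_map (cont_mul k).measurable.aemeasurable
    have := wiener_atomless (μ := μ.map (mul k)) (atomless_map h1 h)
    simpa using this.const_mul (ε ^ 2)⁻¹
  have hsum := tendsto_finsetSum (Finset.Icc 1 K) hk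
  simp only [Finset.sum_const_zero] at hsum
  refine squeeze_zero (fun N => by positivity) (fun N => ?_) hsum
  have hsub : {m : ℕ | m < N ∧ ∃ k : ℕ, 1 ≤ k ∧ k ≤ K ∧ ε ≤ ‖co μ (m * k : ℕ)‖} ⊆
      (((Finset.Icc 1 K).biUnion fun k => (Finset.range N).filter
        fun m : ℕ => ε ≤ ‖co μ (m * k : ℕ)‖ : Finset ℕ) : Set ℕ) := by
    rintro m ⟨hm, k, hk1, hk2, hkε⟩
    simp only [Finset.coe_biUnion, mem_iUnion, Finset.mem_coe, Finset.mem_filter, Finset.mem_range,
      Finset.mem_Icc]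
    exact ⟨k, ⟨hk1, hk2⟩, hm, hkε⟩
  have hcard := (Set.ncard_le_ncard hsub (Finset.finite_toSet _)).trans
    ((Set.ncard_coe_finset _).le.trans Finset.card_biUnion_le)
  have hcheb : ∀ k : ℕ, (((Finset.range N).filter
      fun m : ℕ => ε ≤ ‖co μ (m * k : ℕ)‖).card : ℝ) ≤
      (ε ^ 2)⁻¹ * ∑ m ∈ Finset.range N, ‖co (μ.map (mul k)) m‖ ^ 2 := by
    intro k
    rw [← div_eq_inv_mul, le_div_iff₀ (by positivity)]
    have e : ∀ m : ℕ, ‖co (μ.map (mul k)) m‖ = ‖co μ (m * k : ℕ)‖ := by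
      intro m
      rw [co_map]
      push_cast
      rfl
    simp only [e]
    calc (((Finset.range N).filter fun m : ℕ => ε ≤ ‖co μ (m * k : ℕ)‖).card : ℝ) * ε ^ 2
        = ∑ m ∈ (Finset.range N).filter (fun m : ℕ => ε ≤ ‖co μ (m * k : ℕ)‖), ε ^ 2 := by
          rw [Finset.sum_const, nsmul_eq_mul]
      _ ≤ ∑ m ∈ (Finset.range N).filter (fun m : ℕ => ε ≤ ‖co μ (m * k : ℕ)‖),
            ‖co μ (m * k : ℕ)‖ ^ 2 := by
          refine Finset.sum_le_sum fun m hm => ?_
          have := (Finset.mem_filter.1 hm).2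
          gcongr
      _ ≤ _ := Finset.sum_le_sum_of_subset_of_nonneg (Finset.filter_subset _ _)
          fun m _ _ => by positivity
  have h3 : (({m : ℕ | m < N ∧ ∃ k : ℕ, 1 ≤ k ∧ k ≤ K ∧ ε ≤ ‖co μ (m * k : ℕ)‖}.ncard : ℕ) : ℝ) ≤
      ∑ k ∈ Finset.Icc 1 K, (ε ^ 2)⁻¹ * ∑ m ∈ Finset.range N, ‖co (μ.map (mul k)) m‖ ^ 2 := by
    refine (Nat.cast_le.2 hcard).trans ?_
    push_cast
    exact Finset.sum_le_sum fun k _ => hcheb k
  calc _ ≤ (N : ℝ)⁻¹ * ∑ k ∈ Finset.Icc 1 K, (ε ^ 2)⁻¹ *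
        ∑ m ∈ Finset.range N, ‖co (μ.map (mul k)) m‖ ^ 2 := by gcongr
    _ = _ := by
      rw [Finset.mul_sum]
      refine Finset.sum_congr rfl fun k _ => ?_
      ring

/-- Lebesgue measure. -/
noncomputable def lamP : ProbabilityMeasure UnitAddCircle := ⟨volume, ⟨UnitAddCircle.measure_univ⟩⟩

lemma co_vol {n : ℤ} (hn : n ≠ 0) : co (volume : Measure UnitAddCircle) n = 0 := by
  have h : ∫ x : UnitAddCircle, (fourier n x : ℂ) = 0 := by
    have h1 := (integral_add_right_eq_self (μ := (volume : Measure UnitAddCircle))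
      (fun x : UnitAddCircle => (fourier n x : ℂ)) ((1 / 2 / (n : ℝ) : ℝ) : UnitAddCircle))
    have h2 : ∀ x : UnitAddCircle, (fourier n (x + ((1 / 2 / (n : ℝ) : ℝ) : UnitAddCircle)) : ℂ) =
        -(fourier n x : ℂ) := by
      intro x
      have := fourier_add_half_inv_index (T := (1 : ℝ)) hn one_pos x
      exact this
    simp only [h2, integral_neg] at h1
    have h3 : (2 : ℂ) * ∫ x : UnitAddCircle, (fourier n x : ℂ) = 0 := by
      linear_combination -h1
    simpa using h3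
  exact h

/-- A neighbourhood of Lebesgue measure is given by finitely many Fourier coefficients. -/
theorem nhds_vol (U : Set (ProbabilityMeasure UnitAddCircle)) (hU : U ∈ 𝓝 lamP) :
    ∃ (K : ℕ) (ε : ℝ), 0 < ε ∧ ∀ ν : ProbabilityMeasure UnitAddCircle,
      (∀ k : ℕ, 1 ≤ k → k ≤ K → ‖co (ν : Measure UnitAddCircle) k‖ < ε) → ν ∈ U := by
  by_contra hcon
  push Not at hcon
  have h1 : ∀ n : ℕ, ∃ ν : ProbabilityMeasure UnitAddCircle,
      (∀ k : ℕ, 1 ≤ k → k ≤ n → ‖co (ν : Measure UnitAddCircle) k‖ < 1 / ((n : ℝ) + 1)) ∧ ν ∉ U :=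
    fun n => hcon n (1 / ((n : ℝ) + 1)) (by positivity)
  choose ν hν hνU using h1
  obtain ⟨ρ, -, hρ⟩ := (isCompact_univ (X := ProbabilityMeasure UnitAddCircle)).ultrafilter_le_nhds
    ((Ultrafilter.of atTop).map ν) (by simp)
  have h2 : Tendsto ν ((Ultrafilter.of atTop : Ultrafilter ℕ) : Filter ℕ) (𝓝 ρ) := hρ
  have hle : ((Ultrafilter.of atTop : Ultrafilter ℕ) : Filter ℕ) ≤ atTop := Ultrafilter.of_le atTop
  have hco : ∀ k : ℤ, Tendsto (fun n => co (ν n : Measure UnitAddCircle) k)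
      ((Ultrafilter.of atTop : Ultrafilter ℕ) : Filter ℕ) (𝓝 (co (ρ : Measure UnitAddCircle) k)) := by
    intro k
    rw [ProbabilityMeasure.tendsto_iff_forall_integral_rclike_tendsto ℂ] at h2
    exact h2 (BoundedContinuousFunction.mkOfCompact (fourier k))
  have hzero : ∀ k : ℕ, 1 ≤ k → co (ρ : Measure UnitAddCircle) k = 0 := by
    intro k hk
    refine tendsto_nhds_unique (hco k) ?_
    refine Tendsto.mono_left ?_ hle
    refine squeeze_zero_norm' ?_ (tendsto_one_div_add_atTop_nhds_zero_nat (𝕜 := ℝ))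
    filter_upwards [eventually_ge_atTop k] with n hn
    exact (hν n k hk hn).le
  have hneg : ∀ (σ : Measure UnitAddCircle) (k : ℤ), co σ (-k) = (starRingEnd ℂ) (co σ k) := by
    intro σ k
    rw [co, co, ← integral_conj]
    refine integral_congr_ae (Eventually.of_forall fun y => ?_)
    exact fourier_neg
  have hvol : ∀ k : ℤ, k ≠ 0 → co (volume : Measure UnitAddCircle) k = 0 := fun k hk => co_vol hk
  have hρv : (ρ : Measure UnitAddCircle) = volume := by
    have : IsProbabilityMeasure (volume : Measure UnitAddCircle) := ⟨UnitAddCircle.measure_univ⟩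
    refine Pool.Agent.R202.ext_fourier fun m => ?_
    change co _ m = co _ m
    rcases lt_trichotomy m 0 with hm | hm | hm
    · obtain ⟨k, hk⟩ : ∃ k : ℕ, m = -(k : ℤ) := ⟨m.natAbs, by omega⟩
      rw [hk, hneg, hneg, hzero k (by omega), hvol k (by omega)]
    · subst hm
      simp [co]
    · obtain ⟨k, hk⟩ : ∃ k : ℕ, m = (k : ℤ) := ⟨m.natAbs, by omega⟩
      rw [hk, hzero k (by omega), hvol k (by omega)]
  have hρ' : ρ = lamP := Subtype.ext hρv
  rw [← hρ'] at hU
  obtain ⟨n, hn⟩ := (h2.eventually hU).exists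
  exact hνU n hn

end Pool.Agent.U106.FC
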