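import Pool.Agent.U106.FC.Hilb
import Pool.Agent.U106.FC.Local

/-!
# Ergodic components
-/

set_option autoImplicit false
set_option linter.unusedSectionVars false

open MeasureTheory Filter Topology Set ProbabilityTheory
open scoped ENNReal NNReal

namespace Pool.Agent.U106.FC

/-- `x ↦ m x` as a continuous map. -/
def cm (m : ℕ) : C(UnitAddCircle, UnitAddCircle) := ⟨mul m, cont_mul m⟩

section

variable {p q : ℕ} {μ : Measure UnitAddCircle} [IsProbabilityMeasure μ]
  (hS : MeasurePreserving (cm p) μ μ) (hT : MeasurePreserving (cm q) μ μ)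

/-- The Fourier coefficients of the ergodic components. -/
noncomputable def phi (k : ℤ) : UnitAddCircle → ℂ := proj hS hT (cl μ (fourier k))

theorem phi_meas (k : ℤ) : Measurable (phi hS hT k) := (Lp.stronglyMeasurable _).measurable

/-- All Fourier coefficients. -/
noncomputable def Phi : UnitAddCircle → (ℤ → ℂ) := fun x k => phi hS hT k x

theorem Phi_meas : Measurable (Phi hS hT) := measurable_pi_lambda _ fun k => phi_meas hS hT k

/-- The `σ`-algebra generated by the coefficients. -/
@[reducible] noncomputable def J : MeasurableSpace UnitAddCircle :=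
  MeasurableSpace.comap (Phi hS hT) inferInstance

theorem J_le : J hS hT ≤ (inferInstance : MeasurableSpace UnitAddCircle) :=
  (Phi_meas hS hT).comap_le

theorem phi_J (k : ℤ) : Measurable[J hS hT] (phi hS hT k) :=
  (measurable_pi_apply k).comp (comap_measurable (Phi hS hT))

theorem phi_inv : (∀ᵐ x ∂μ, Phi hS hT (cm p x) = Phi hS hT x) ∧
    (∀ᵐ x ∂μ, Phi hS hT (cm q x) = Phi hS hT x) := by
  constructor
  · have h : ∀ᵐ x ∂μ, ∀ k : ℤ, phi hS hT k (cm p x) = phi hS hT k x := by
      refine ae_all_iff.2 fun k => ?_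
      have h1 := (fixed hS hT (mean_proj hS hT (cl μ (fourier k)))).1
      have h2 := Lp.coeFn_compMeasurePreserving (proj hS hT (cl μ (fourier k))) hS
      have h3 : (koop hS (proj hS hT (cl μ (fourier k))) : UnitAddCircle → ℂ) =
        (proj hS hT (cl μ (fourier k)) : UnitAddCircle → ℂ) := by rw [h1]
      have h4 : (koop hS (proj hS hT (cl μ (fourier k))) : UnitAddCircle → ℂ) =ᵐ[μ]
        (proj hS hT (cl μ (fourier k)) : UnitAddCircle → ℂ) ∘ cm p := h2
      rw [h3] at h4
      filter_upwards [h4] with x hx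
      exact hx.symm
    filter_upwards [h] with x hx
    funext k
    exact hx k
  · have h : ∀ᵐ x ∂μ, ∀ k : ℤ, phi hS hT k (cm q x) = phi hS hT k x := by
      refine ae_all_iff.2 fun k => ?_
      have h1 := (fixed hS hT (mean_proj hS hT (cl μ (fourier k)))).2
      have h2 := Lp.coeFn_compMeasurePreserving (proj hS hT (cl μ (fourier k))) hT
      have h3 : (koop hT (proj hS hT (cl μ (fourier k))) : UnitAddCircle → ℂ) =
        (proj hS hT (cl μ (fourier k)) : UnitAddCircle → ℂ) := by rw [h1]
      have h4 : (koop hT (proj hS hT (cl μ (fourier k))) : UnitAddCircle → ℂ) =ᵐ[μ]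
        (proj hS hT (cl μ (fourier k)) : UnitAddCircle → ℂ) ∘ cm q := h2
      rw [h3] at h4
      filter_upwards [h4] with x hx
      exact hx.symm
    filter_upwards [h] with x hx
    funext k
    exact hx k

theorem setIntegral_phi (k : ℤ) {A : Set UnitAddCircle} (hA : MeasurableSet[J hS hT] A) :
    ∫ x in A, phi hS hT k x ∂μ = ∫ x in A, (fourier k x : ℂ) ∂μ := by
  have hAm : MeasurableSet A := J_le hS hT _ hA
  obtain ⟨B, hB, hBA⟩ := hA
  have hSA : cm p ⁻¹' A =ᵐ[μ] A := by
    filter_upwards [(phi_inv hS hT).1] with x hx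
    have : (cm p x ∈ A) = (x ∈ A) := by
      rw [← hBA]
      simp only [mem_preimage, hx]
    exact this
  have hTA : cm q ⁻¹' A =ᵐ[μ] A := by
    filter_upwards [(phi_inv hS hT).2] with x hx
    have : (cm q x ∈ A) = (x ∈ A) := by
      rw [← hBA]
      simp only [mem_preimage, hx]
    exact this
  set g : Lp ℂ 2 μ := indicatorConstLp 2 hAm (measure_ne_top μ A) (1 : ℂ) with hg
  have hgfix : ∀ {R : UnitAddCircle → UnitAddCircle} (hR : MeasurePreserving R μ μ),
      R ⁻¹' A =ᵐ[μ] A → koop hR g = g := by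
    intro R hR hRA
    refine Lp.ext ?_
    have h1 : (koop hR g : UnitAddCircle → ℂ) =ᵐ[μ] g ∘ R := Lp.coeFn_compMeasurePreserving g hR
    have h2 : (g : UnitAddCircle → ℂ) =ᵐ[μ] A.indicator fun _ => (1 : ℂ) := indicatorConstLp_coeFn
    have h3 : (g : UnitAddCircle → ℂ) ∘ R =ᵐ[μ] (A.indicator fun _ => (1 : ℂ)) ∘ R :=
      hR.quasiMeasurePreserving.ae_eq_comp h2
    have h4 : (A.indicator fun _ => (1 : ℂ)) ∘ R =ᵐ[μ] A.indicator fun _ => (1 : ℂ) := by
      filter_upwards [hRA] with x hx
      have hx' : R x ∈ A ↔ x ∈ A := iff_of_eq hx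
      by_cases hxA : x ∈ A
      · rw [Function.comp_apply, indicator_of_mem (hx'.2 hxA), indicator_of_mem hxA]
      · rw [Function.comp_apply, indicator_of_notMem (fun h => hxA (hx'.1 h)),
          indicator_of_notMem hxA]
    exact (h1.trans h3).trans (h4.trans h2.symm)
  have hfix : mean hS hT g = g := by
    rw [mean_apply, hgfix hS hSA, hgfix hT hTA, ← two_smul ℂ, smul_smul]
    norm_num
  have h1 := inner_proj hS hT (cl μ (fourier k)) g hfix
  rw [hg, L2.inner_indicatorConstLp_one, L2.inner_indicatorConstLp_one] at h1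
  rw [phi, h1]
  exact setIntegral_congr_ae hAm ((coeFn_cl μ (fourier k)).mono fun x hx _ => hx)

theorem condExp_phi (k : ℤ) :
    phi hS hT k =ᵐ[μ] μ[(fun x => (fourier k x : ℂ)) | J hS hT] := by
  have hint : Integrable (fun x => (fourier k x : ℂ)) μ :=
    (fourier k).continuous.integrable_of_hasCompactSupport (HasCompactSupport.of_compactSpace _)
  have hphi : Integrable (phi hS hT k) μ :=
    (Lp.memLp (proj hS hT (cl μ (fourier k)))).integrable one_le_two
  refine ae_eq_condExp_of_forall_setIntegral_eq (J_le hS hT) hint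
    (fun s _ _ => hphi.integrableOn) (fun s hs _ => setIntegral_phi hS hT k hs) ?_
  exact (phi_J hS hT k).stronglyMeasurable.aestronglyMeasurable

/-- The ergodic components. -/
noncomputable def comp (x : UnitAddCircle) : Measure UnitAddCircle :=
  condExpKernel μ (J hS hT) x

instance (x : UnitAddCircle) : IsProbabilityMeasure (comp hS hT x) := by
  rw [comp]
  infer_instance

theorem co_comp : ∀ᵐ x ∂μ, ∀ k : ℤ, co (comp hS hT x) k = phi hS hT k x := by
  refine ae_all_iff.2 fun k => ?_
  have hint : Integrable (fun x => (fourier k x : ℂ)) μ :=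
    (fourier k).continuous.integrable_of_hasCompactSupport (HasCompactSupport.of_compactSpace _)
  have h1 := condExp_ae_eq_integral_condExpKernel (J_le hS hT) hint
  filter_upwards [h1, condExp_phi hS hT k] with x hx1 hx2
  rw [hx2, hx1]
  rfl

theorem ae_comp {P : UnitAddCircle → Prop} (h : ∀ᵐ x ∂μ, P x) :
    ∀ᵐ x ∂μ, ∀ᵐ y ∂(comp hS hT x), P y := by
  have h1 : ∀ᵐ x ∂(condExpKernel μ (J hS hT) ∘ₘ μ.trim (J_le hS hT)), P x := by
    rw [condExpKernel_comp_trim]
    exact h
  exact ae_of_ae_trim (J_le hS hT) (Measure.ae_ae_of_ae_comp h1)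

theorem phi_const : ∀ᵐ x ∂μ, ∀ᵐ y ∂(comp hS hT x), ∀ k : ℤ, phi hS hT k y = phi hS hT k x := by
  have h1 : ∀ k : ℤ, ∀ᵐ z ∂((μ.trim (J_le hS hT)) ⊗ₘ condExpKernel μ (J hS hT)),
      phi hS hT k z.2 = phi hS hT k z.1 := by
    intro k
    rw [compProd_trim_condExpKernel]
    have hm1 : @Measurable (UnitAddCircle × UnitAddCircle) ℂ ((J hS hT).prod inferInstance) _
        (fun z => phi hS hT k z.1) :=
      (phi_J hS hT k).comp (@measurable_fst UnitAddCircle UnitAddCircle (J hS hT) inferInstance)
    have hm2 : @Measurable (UnitAddCircle × UnitAddCircle) ℂ ((J hS hT).prod inferInstance) _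
        (fun z => phi hS hT k z.2) :=
      (phi_meas hS hT k).comp (@measurable_snd UnitAddCircle UnitAddCircle (J hS hT) inferInstance)
    have hset := measurableSet_eq_fun hm2 hm1
    have hdiag : @Measurable UnitAddCircle (UnitAddCircle × UnitAddCircle) inferInstance
        ((J hS hT).prod inferInstance) Function.diag :=
      Measurable.prodMk (measurable_id'' (J_le hS hT)) measurable_id
    have hdiag' := @Measurable.aemeasurable UnitAddCircle (UnitAddCircle × UnitAddCircle)
      inferInstance ((J hS hT).prod inferInstance) Function.diag μ hdiag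
    refine (@ae_map_iff UnitAddCircle (UnitAddCircle × UnitAddCircle) inferInstance
      ((J hS hT).prod inferInstance) μ Function.diag hdiag' _ hset).2 ?_
    exact Eventually.of_forall fun x => rfl
  have h2 := ae_all_iff.2 h1
  exact ae_of_ae_trim (J_le hS hT) (Measure.ae_ae_of_ae_compProd h2)

theorem phi_mul (k : ℤ) : phi hS hT (k * p) = phi hS hT k ∧ phi hS hT (k * q) = phi hS hT k := by
  have hf : ∀ m : ℕ, (fourier (T := (1 : ℝ)) k).comp (cm m) = fourier (k * m) := by
    intro m
    ext x
    exact fourier_nsmul k m x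
  constructor
  · have h1 := (proj_koop hS hT (cl μ (fourier k))).1
    rw [koop_cl, hf p] at h1
    rw [phi, phi, h1]
  · have h1 := (proj_koop hS hT (cl μ (fourier k))).2
    rw [koop_cl, hf q] at h1
    rw [phi, phi, h1]

theorem comp_inv : ∀ᵐ x ∂μ, MeasurePreserving (cm p) (comp hS hT x) (comp hS hT x) ∧
    MeasurePreserving (cm q) (comp hS hT x) (comp hS hT x) := by
  filter_upwards [co_comp hS hT] with x hx
  have key : ∀ m : ℕ, (∀ k : ℤ, phi hS hT (k * m) = phi hS hT k) →
      MeasurePreserving (cm m) (comp hS hT x) (comp hS hT x) := by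
    intro m hm
    refine ⟨(cm m).continuous.measurable, ?_⟩
    have hprob : IsProbabilityMeasure ((comp hS hT x).map (mul m)) :=
      Measure.isProbabilityMeasure_map (cont_mul m).measurable.aemeasurable
    refine Pool.Agent.R202.ext_fourier (μ := (comp hS hT x).map (mul m)) fun k => ?_
    change co _ k = co _ k
    rw [co_map, hx, hx, hm]
  exact ⟨key p fun k => (phi_mul hS hT k).1, key q fun k => (phi_mul hS hT k).2⟩

end

/-! ### Atoms of invariant measures are torsion points -/

theorem torsion_countable : {x : UnitAddCircle | ∃ n : ℕ, 0 < n ∧ n • x = 0}.Countable := by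
  have : {x : UnitAddCircle | ∃ n : ℕ, 0 < n ∧ n • x = 0} =
      ⋃ n ∈ {n : ℕ | 0 < n}, {x : UnitAddCircle | n • x = 0} := by
    ext x
    simp
  rw [this]
  exact (Set.to_countable _).biUnion fun n hn => (AddCircle.finite_torsion 1 hn).countable

theorem atom_torsion {p : ℕ} (hp : 2 ≤ p) {ρ : Measure UnitAddCircle} [IsFiniteMeasure ρ]
    (h : MeasurePreserving (mul p) ρ ρ) {x : UnitAddCircle} (hx : ρ {x} ≠ 0) :
    ∃ n : ℕ, 0 < n ∧ n • x = 0 := by
  by_contra hcon
  push Not at hcon
  have hinj : Function.Injective fun i : ℕ => mul (p ^ i) x := by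
    have key : ∀ i j : ℕ, i < j → mul (p ^ i) x ≠ mul (p ^ j) x := by
      intro i j hij he
      have hlt : p ^ i < p ^ j := Nat.pow_lt_pow_right (by omega) hij
      refine hcon (p ^ j - p ^ i) (by omega) ?_
      have : (p ^ j - p ^ i) • x + (p ^ i) • x = (p ^ j) • x := by
        rw [← add_smul, Nat.sub_add_cancel hlt.le]
      have he' : (p ^ i) • x = (p ^ j) • x := he
      rw [← he'] at this
      simpa using this
    intro i j hij
    rcases lt_trichotomy i j with h1 | h1 | h1
    · exact absurd hij (key i j h1)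
    · exact h1
    · exact absurd hij.symm (key j i h1)
  have hge : ∀ i : ℕ, ρ {x} ≤ ρ {mul (p ^ i) x} := by
    intro i
    have h1 : MeasurePreserving (mul (p ^ i)) ρ ρ := by
      rw [← mul_iter]
      exact h.iterate i
    calc ρ {x} ≤ ρ (mul (p ^ i) ⁻¹' {mul (p ^ i) x}) := measure_mono (by simp)
      _ = ρ {mul (p ^ i) x} := h1.measure_preimage (measurableSet_singleton _).nullMeasurableSet
  have hsum : ∑' _ : ℕ, ρ {x} ≤ ρ univ := by
    calc ∑' _ : ℕ, ρ {x} ≤ ∑' i : ℕ, ρ {mul (p ^ i) x} := ENNReal.tsum_le_tsum hge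
      _ = ρ (⋃ i : ℕ, {mul (p ^ i) x}) := by
        rw [measure_iUnion]
        · intro i j hij
          exact Set.disjoint_singleton.2 (hinj.ne hij)
        · exact fun i => measurableSet_singleton _
      _ ≤ ρ univ := measure_mono (subset_univ _)
  rw [ENNReal.tsum_const_eq_top_of_ne_zero hx] at hsum
  exact absurd hsum (by simp)

end Pool.Agent.U106.FC
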