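import Pool.Agent.U106.FC.ErgDec

/-!
# Existence of exceptional ergodic measures
-/

set_option autoImplicit false
set_option linter.unusedSectionVars false

open MeasureTheory Filter Topology Set ProbabilityTheory
open scoped ENNReal NNReal

namespace Pool.Agent.U106.FC

theorem cav_bound {X : Type*} [MetricSpace X] [CompactSpace X] (S T : C(X, X)) (n : ℕ)
    {f : C(X, ℂ)} (hf : ∀ x, ‖f x‖ ≤ 1) (x : X) : ‖cav S T n f x‖ ≤ 1 := by
  have h2 : ∀ l x, ‖((cmean S T)^[l] f) x‖ ≤ 1 := by
    intro l
    induction l with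
    | zero => exact hf
    | succ l ih =>
      intro x
      rw [Function.iterate_succ_apply']
      have e : cmean S T ((cmean S T)^[l] f) x =
        (1 / 2 : ℂ) * (((cmean S T)^[l] f) (S x) + ((cmean S T)^[l] f) (T x)) := rfl
      rw [e, norm_mul]
      have h3 : ‖(1 / 2 : ℂ)‖ = 1 / 2 := by simp
      rw [h3]
      have h4 := norm_add_le (((cmean S T)^[l] f) (S x)) (((cmean S T)^[l] f) (T x))
      have h5 := ih (S x)
      have h6 := ih (T x)
      linarith
  have e : cav S T n f x = (n : ℂ)⁻¹ * ∑ l ∈ Finset.range n, ((cmean S T)^[l] f) x := by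
    simp only [cav, birkhoffAverage, birkhoffSum, _root_.id, ContinuousMap.coe_smul, Pi.smul_apply,
      ContinuousMap.coe_sum, Finset.sum_apply, smul_eq_mul]
  rw [e, norm_mul, norm_inv, Complex.norm_natCast]
  have h7 : ‖∑ l ∈ Finset.range n, ((cmean S T)^[l] f) x‖ ≤ n := by
    refine (norm_sum_le _ _).trans ((Finset.sum_le_sum fun l _ => h2 l x).trans ?_)
    simp
  rcases Nat.eq_zero_or_pos n with hn | hn
  · subst hn
    simp
  · rw [inv_mul_le_iff₀ (by exact_mod_cast hn), mul_one]
    exact h7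

section

variable {p q : ℕ} {μ : Measure UnitAddCircle} [IsProbabilityMeasure μ]
  (hS : MeasurePreserving (cm p) μ μ) (hT : MeasurePreserving (cm q) μ μ)

theorem subseq (k : ℤ) : ∃ n : ℕ → ℕ, StrictMono n ∧
    ∀ᵐ x ∂μ, Tendsto (fun j => cav (cm p) (cm q) (n j) (fourier k) x) atTop
      (𝓝 (phi hS hT k x)) := by
  have h1 := tendsto_proj hS hT (cl μ (fourier k))
  have h2 : TendstoInMeasure μ (fun n => ⇑(birkhoffAverage ℂ (mean hS hT) _root_.id n
      (cl μ (fourier k)))) atTop (phi hS hT k) := tendstoInMeasure_of_tendsto_Lp h1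
  obtain ⟨n, hn, hlim⟩ := h2.exists_seq_tendsto_ae
  refine ⟨n, hn, ?_⟩
  have h3 : ∀ᵐ x ∂μ, ∀ j, (birkhoffAverage ℂ (mean hS hT) _root_.id (n j)
      (cl μ (fourier k))) x = cav (cm p) (cm q) (n j) (fourier k) x := by
    refine ae_all_iff.2 fun j => ?_
    rw [cav_cl]
    exact coeFn_cl μ _
  filter_upwards [hlim, h3] with x hx hx3
  simpa only [hx3] using hx

/-- The components are ergodic. -/
theorem comp_ergodic : ∀ᵐ x ∂μ, ∀ E : Set UnitAddCircle, MeasurableSet E → cm p ⁻¹' E = E →
    cm q ⁻¹' E = E → comp hS hT x E = 0 ∨ comp hS hT x E = 1 := by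
  choose n hn hlim using subseq hS hT
  have h1 : ∀ᵐ x ∂μ, ∀ k : ℤ, Tendsto (fun j => cav (cm p) (cm q) (n k j) (fourier k) x) atTop
      (𝓝 (phi hS hT k x)) := ae_all_iff.2 hlim
  filter_upwards [ae_comp hS hT h1, phi_const hS hT, co_comp hS hT, comp_inv hS hT] with
    x hx1 hx2 hx3 hx4
  intro E hE hSE hTE
  set κ := comp hS hT x with hκ
  have key : ∀ k : ℤ, ∫ y in E, (fourier k y : ℂ) ∂κ = κ.real E * co κ k := by
    intro k
    have h2 : Tendsto (fun j => ∫ y in E, cav (cm p) (cm q) (n k j) (fourier k) y ∂κ) atTop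
        (𝓝 (∫ _ in E, phi hS hT k x ∂κ)) := by
      refine tendsto_integral_of_dominated_convergence (fun _ => (1 : ℝ))
        (fun j => (cav (cm p) (cm q) (n k j) (fourier k)).continuous.aestronglyMeasurable)
        (integrable_const _) (fun j => Eventually.of_forall fun y =>
          cav_bound _ _ _ (fun z => (norm_fourier k z).le) y) ?_
      refine ae_restrict_of_ae ?_
      filter_upwards [hx1, hx2] with y hy1 hy2
      rw [← hy2 k]
      exact hy1 k
    have h3 : Tendsto (fun j => ∫ y in E, cav (cm p) (cm q) (n k j) (fourier k) y ∂κ) atTop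
        (𝓝 (∫ y in E, (fourier k y : ℂ) ∂κ)) := by
      refine (tendsto_congr' ?_).2 tendsto_const_nhds
      filter_upwards [eventually_ge_atTop 1] with j hj
      exact cav_integral hx4.1 hx4.2 hE hSE hTE (hj.trans ((hn k).id_le j)) (fourier k)
    have h4 := tendsto_nhds_unique h3 h2
    rw [h4, setIntegral_const, ← hx3 k]
    rfl
  have h5 : κ.restrict E = κ E • κ := by
    have hfin : IsFiniteMeasure (κ E • κ) := by
      constructor
      rw [Measure.smul_apply, smul_eq_mul]
      exact ENNReal.mul_lt_top (measure_lt_top _ _) (measure_lt_top _ _)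
    refine Pool.Agent.R202.ext_fourier fun k => ?_
    rw [key k, integral_smul_measure]
    rfl
  have h6 : κ E = κ E * κ E := by
    have := congrArg (fun ρ : Measure UnitAddCircle => ρ E) h5
    simpa [Measure.restrict_apply_self, Measure.smul_apply] using this
  by_cases h0 : κ E = 0
  · exact Or.inl h0
  · right
    have h7 : κ E * 1 = κ E * κ E := by rw [mul_one]; exact h6
    exact ((ENNReal.mul_right_inj h0 (measure_ne_top _ _)).1 h7).symm

/-- The components are atomless. -/
theorem comp_atomless (hp : 2 ≤ p) (hat : ∀ x, μ {x} = 0) :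
    ∀ᵐ x ∂μ, ∀ y, comp hS hT x {y} = 0 := by
  have h0 : μ {x : UnitAddCircle | ∃ n : ℕ, 0 < n ∧ n • x = 0} = 0 := by
    rw [← biUnion_of_singleton {x : UnitAddCircle | ∃ n : ℕ, 0 < n ∧ n • x = 0}]
    exact (measure_biUnion_null_iff torsion_countable).2 fun x _ => hat x
  have h1 : ∀ᵐ x ∂μ, ¬ ∃ n : ℕ, 0 < n ∧ n • x = 0 := measure_eq_zero_iff_ae_notMem.1 h0
  filter_upwards [ae_comp hS hT h1, comp_inv hS hT] with x hx1 hx2
  intro y
  by_contra hy
  have h2 := atom_torsion hp hx2.1 hy
  refine hy (measure_mono_null (singleton_subset_iff.2 ?_) (ae_iff.1 hx1))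
  simpa using h2

end

/-- If Furstenberg's conjecture fails, there is an exceptional ergodic measure. -/
theorem exists_exceptional {p q : ℕ} (hp : 2 ≤ p) {μ : Measure UnitAddCircle}
    [IsProbabilityMeasure μ] (hat : ∀ x, μ {x} = 0)
    (hS : MeasurePreserving (fun x : UnitAddCircle => p • x) μ μ)
    (hT : MeasurePreserving (fun x : UnitAddCircle => q • x) μ μ) (hne : μ ≠ volume) :
    ∃ κ : Measure UnitAddCircle, Exceptional p q κ := by
  by_contra hcon
  push Not at hcon
  have hS' : MeasurePreserving (cm p) μ μ := hS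
  have hT' : MeasurePreserving (cm q) μ μ := hT
  have hv : IsProbabilityMeasure (volume : Measure UnitAddCircle) := ⟨UnitAddCircle.measure_univ⟩
  have h1 : ∀ᵐ x ∂μ, ∀ k : ℤ, k ≠ 0 → phi hS' hT' k x = 0 := by
    filter_upwards [co_comp hS' hT', comp_inv hS' hT', comp_ergodic hS' hT',
      comp_atomless hS' hT' hp hat] with x hx1 hx2 hx3 hx4
    intro k hk
    have h2 : comp hS' hT' x = volume := by
      by_contra hv
      exact hcon _ ⟨inferInstance, hx4, hx2.1, hx2.2, hx3, hv⟩
    rw [← hx1 k, h2, co_vol hk]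
  refine hne (Pool.Agent.R202.ext_fourier fun k => ?_)
  change co _ k = co _ k
  by_cases hk : k = 0
  · subst hk
    simp [co]
  · rw [co_vol hk]
    have h2 := setIntegral_phi hS' hT' k (A := univ) MeasurableSet.univ
    rw [Measure.restrict_univ] at h2
    change _ = co μ k at h2
    rw [← h2]
    refine integral_eq_zero_of_ae ?_
    filter_upwards [h1] with x hx
    exact hx k hk

end Pool.Agent.U106.FC
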