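import Pool.Agent.U106.FC.Lift

/-!
# The fibres of `×m` on the exceptional measures
-/

set_option autoImplicit false
set_option linter.unusedSectionVars false

open MeasureTheory Filter Topology Set ProbabilityTheory
open scoped ENNReal NNReal

namespace Pool.Agent.U106.FC

instance fact_zero_lt_one' : Fact ((0 : ℝ) < 1) := ⟨one_pos⟩

theorem exists_base {m : ℕ} (hm : 1 ≤ m) (μ : Measure UnitAddCircle) [IsProbabilityMeasure μ] :
    ∃ ν : Measure UnitAddCircle, IsProbabilityMeasure ν ∧ ν.map (mul m) = μ := by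
  set s : UnitAddCircle → UnitAddCircle := fun x =>
    (((AddCircle.measurableEquivIco (1 : ℝ) 0 x : ℝ) / m : ℝ) : UnitAddCircle) with hs
  have hsm : Measurable s := by
    have h1 : Measurable fun x : UnitAddCircle =>
        ((AddCircle.measurableEquivIco (1 : ℝ) 0 x : ℝ) / m : ℝ) :=
      (measurable_subtype_coe.comp (AddCircle.measurableEquivIco (1 : ℝ) 0).measurable).div_const _
    exact AddCircle.measurable_mk'.comp h1
  have hms : ∀ x, mul m (s x) = x := by
    intro x
    have hm0 : (m : ℝ) ≠ 0 := Nat.cast_ne_zero.2 (by omega)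
    have h1 : (((AddCircle.measurableEquivIco (1 : ℝ) 0 x : ℝ) : ℝ) : UnitAddCircle) = x :=
      (AddCircle.equivIco (1 : ℝ) 0).symm_apply_apply x
    have h2 : mul m (s x) = ((m * ((AddCircle.measurableEquivIco (1 : ℝ) 0 x : ℝ) / m) : ℝ) :
        UnitAddCircle) := by
      simp only [mul, hs]
      rw [← AddCircle.coe_nsmul, nsmul_eq_mul]
    rw [h2, mul_div_cancel₀ _ hm0, h1]
  refine ⟨μ.map s, Measure.isProbabilityMeasure_map hsm.aemeasurable, ?_⟩
  rw [Measure.map_map (cont_mul m).measurable hsm]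
  have : mul m ∘ s = id := funext hms
  rw [this, Measure.map_id]

theorem lift_step {r s m : ℕ} {μ ν : Measure UnitAddCircle} [IsProbabilityMeasure ν]
    (hr : MeasurePreserving (mul r) μ μ) (hν : ν.map (mul m) = μ)
    (hs : MeasurePreserving (mul s) ν ν) :
    ∃ ρ : Measure UnitAddCircle, IsProbabilityMeasure ρ ∧ MeasurePreserving (mul r) ρ ρ ∧
      MeasurePreserving (mul s) ρ ρ ∧ ρ.map (mul m) = μ := by
  obtain ⟨ρ, U, h1, h2, h3, h4, h5⟩ := exists_limit (cont_mul r) (cont_mul s) (mul_comm' r s) ν hs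
  refine ⟨ρ, h1, h3, h4, ?_⟩
  have hμ : IsProbabilityMeasure μ := hν ▸
    Measure.isProbabilityMeasure_map (cont_mul m).measurable.aemeasurable
  have hfin : IsProbabilityMeasure (ρ.map (mul m)) :=
    Measure.isProbabilityMeasure_map (cont_mul m).measurable.aemeasurable
  refine ext_of_forall_integral_eq_of_IsFiniteMeasure fun f => ?_
  rw [integral_map (cont_mul m).measurable.aemeasurable f.continuous.aestronglyMeasurable]
  have hF : Continuous fun x => f (mul m x) := f.continuous.comp (cont_mul m)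
  have h6 := h5 _ hF
  have h7 : ∀ n, ∫ x, f (mul m x) ∂(avg (mul r) ν n) = ∫ x, f x ∂μ := by
    intro n
    rw [integral_avg (cont_mul r) ν n hF]
    have h8 : ∀ i, ∫ x, f (mul m ((mul r)^[i] x)) ∂ν = ∫ x, f x ∂μ := by
      intro i
      have h9 : ∀ x, mul m ((mul r)^[i] x) = (mul r)^[i] (mul m x) := by
        intro x
        rw [mul_iter]
        exact mul_comm' _ _ x
      simp only [h9]
      have h10 : ∫ x, f ((mul r)^[i] (mul m x)) ∂ν = ∫ y, f ((mul r)^[i] y) ∂(ν.map (mul m)) := by
        rw [integral_map (cont_mul m).measurable.aemeasurable]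
        exact (f.continuous.comp ((cont_mul r).iterate i)).aestronglyMeasurable
      rw [h10, hν]
      conv_rhs => rw [← (hr.iterate i).map_eq]
      rw [integral_map (hr.iterate i).measurable.aemeasurable f.continuous.aestronglyMeasurable]
    simp only [h8, Finset.sum_const, Finset.card_range, nsmul_eq_mul]
    rw [← mul_assoc, inv_mul_cancel₀ (Nat.cast_ne_zero.2 (by omega)), one_mul]
  simp only [h7] at h6
  exact (tendsto_nhds_unique h6 tendsto_const_nhds)

theorem exists_lift {p q m : ℕ} (hm : 1 ≤ m) {μ : Measure UnitAddCircle} [IsProbabilityMeasure μ]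
    (hp : MeasurePreserving (mul p) μ μ) (hq : MeasurePreserving (mul q) μ μ) :
    ∃ ν : Measure UnitAddCircle, IsProbabilityMeasure ν ∧ MeasurePreserving (mul p) ν ν ∧
      MeasurePreserving (mul q) ν ν ∧ ν.map (mul m) = μ := by
  obtain ⟨ν₀, h0, h1⟩ := exists_base hm μ
  have h2 : MeasurePreserving (mul 1) ν₀ ν₀ := by
    have : mul 1 = id := by funext x; simp [mul]
    rw [this]
    exact MeasurePreserving.id _
  obtain ⟨ν₁, h3, h4, -, h5⟩ := lift_step hp h1 h2
  obtain ⟨ν₂, h6, h7, h8, h9⟩ := lift_step hq h5 h4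
  exact ⟨ν₂, h6, h8, h7, h9⟩

theorem cav_comp (p q m n : ℕ) (f : C(UnitAddCircle, ℂ)) (x : UnitAddCircle) :
    cav (cm p) (cm q) n (f.comp (cm m)) x = cav (cm p) (cm q) n f (mul m x) := by
  have h1 : ∀ g : C(UnitAddCircle, ℂ), cmean (cm p) (cm q) (g.comp (cm m)) =
      (cmean (cm p) (cm q) g).comp (cm m) := by
    intro g
    ext y
    have e1 : cmean (cm p) (cm q) (g.comp (cm m)) y =
      (1 / 2 : ℂ) * (g (mul m (mul p y)) + g (mul m (mul q y))) := rfl
    have e2 : (cmean (cm p) (cm q) g).comp (cm m) y =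
      (1 / 2 : ℂ) * (g (mul p (mul m y)) + g (mul q (mul m y))) := rfl
    rw [e1, e2, mul_comm' m p, mul_comm' m q]
  have h2 : ∀ l, (cmean (cm p) (cm q))^[l] (f.comp (cm m)) =
      ((cmean (cm p) (cm q))^[l] f).comp (cm m) := by
    intro l
    induction l with
    | zero => rfl
    | succ l ih => rw [Function.iterate_succ_apply', ih, h1, Function.iterate_succ_apply']
  simp only [cav, birkhoffAverage, birkhoffSum, _root_.id, ContinuousMap.coe_smul, Pi.smul_apply,
    ContinuousMap.coe_sum, Finset.sum_apply, h2]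
  rfl

/-- Every exceptional measure is the image of an exceptional measure. -/
theorem exists_exceptional_lift {p q m : ℕ} (hm : 1 ≤ m) {μ : Measure UnitAddCircle}
    (h : Exceptional p q μ) : ∃ κ : Measure UnitAddCircle, Exceptional p q κ ∧
      κ.map (mul m) = μ := by
  have hprob := h.1
  obtain ⟨ν, hν, hp, hq, hνμ⟩ := exists_lift hm h.2.2.1 h.2.2.2.1
  have hS : MeasurePreserving (cm p) ν ν := hp
  have hT : MeasurePreserving (cm q) ν ν := hq
  choose n hn hlim using fun k : ℤ => subseq_const h k tendsto_id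
  have h1 : ∀ᵐ x ∂μ, ∀ k : ℤ, Tendsto (fun j => cav (cm p) (cm q) (id (n k j)) (fourier k) x) atTop
      (𝓝 (co μ k)) := ae_all_iff.2 hlim
  rw [← hνμ] at h1
  have h2 := ae_of_ae_map (cont_mul m).measurable.aemeasurable h1
  rw [hνμ] at h2
  obtain ⟨x, hx1, hx2, hx3⟩ := ((ae_comp hS hT h2).and ((comp_inv hS hT).and
    (comp_ergodic hS hT))).exists
  have hmap : (comp hS hT x).map (mul m) = μ := by
    have hpm : IsProbabilityMeasure ((comp hS hT x).map (mul m)) :=
      Measure.isProbabilityMeasure_map (cont_mul m).measurable.aemeasurable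
    refine Pool.Agent.R202.ext_fourier fun k => ?_
    change co _ k = co _ k
    rw [co_map]
    have hf : (fourier (T := (1 : ℝ)) k).comp (cm m) = fourier (k * m) := by
      ext y
      exact fourier_nsmul k m y
    have h3 : Tendsto (fun j => ∫ y in univ, cav (cm p) (cm q) (n k j) (fourier (k * m)) y
        ∂(comp hS hT x)) atTop (𝓝 (∫ _ in univ, co μ k ∂(comp hS hT x))) := by
      refine tendsto_integral_of_dominated_convergence (fun _ => (1 : ℝ))
        (fun j => (cav (cm p) (cm q) (n k j) (fourier (k * m))).continuous.aestronglyMeasurable)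
        (integrable_const _) (fun j => Eventually.of_forall fun y =>
          cav_bound _ _ _ (fun z => (norm_fourier _ z).le) y) ?_
      refine ae_restrict_of_ae ?_
      filter_upwards [hx1] with y hy
      have h4 := hy k
      refine h4.congr fun j => ?_
      rw [← hf, cav_comp]
      rfl
    have h5 : Tendsto (fun j => ∫ y in univ, cav (cm p) (cm q) (n k j) (fourier (k * m)) y
        ∂(comp hS hT x)) atTop (𝓝 (co (comp hS hT x) (k * m))) := by
      refine (tendsto_congr' ?_).2 tendsto_const_nhds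
      filter_upwards [eventually_ge_atTop 1] with j hj
      rw [cav_integral hx2.1 hx2.2 MeasurableSet.univ rfl rfl (hj.trans ((hn k).id_le j)),
        Measure.restrict_univ]
      rfl
    have h6 := tendsto_nhds_unique h5 h3
    rw [h6]
    simp
  refine ⟨comp hS hT x, ⟨inferInstance, ?_, hx2.1, hx2.2, hx3, ?_⟩, hmap⟩
  · intro y
    have h7 := h.2.1 (mul m y)
    rw [← hmap, Measure.map_apply (cont_mul m).measurable (measurableSet_singleton _)] at h7
    exact measure_mono_null (by simp) h7
  · intro hv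
    refine h.2.2.2.2.2 ?_
    rw [← hmap, hv]
    exact (mp_vol hm).map_eq

/-- The fibres have at most `m` elements. -/
theorem fibre_card {p q m : ℕ} (hm : 1 ≤ m) (μ : Measure UnitAddCircle) :
    {κ : Measure UnitAddCircle | Exceptional p q κ ∧ κ.map (mul m) = μ}.encard ≤ m := by
  by_contra hcon
  push Not at hcon
  have h1 : ((m + 1 : ℕ) : ℕ∞) ≤
      {κ : Measure UnitAddCircle | Exceptional p q κ ∧ κ.map (mul m) = μ}.encard := by
    push_cast
    exact Order.add_one_le_of_lt hcon
  obtain ⟨t, ht, htc⟩ := Set.exists_subset_encard_eq h1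
  have htfin : t.Finite := Set.finite_of_encard_eq_coe htc
  have hc : htfin.toFinset.card = m + 1 := by
    have := htfin.encard_eq_coe_toFinset_card
    rw [htc] at this
    exact_mod_cast this.symm
  set κ : Fin (m + 1) → Measure UnitAddCircle := fun i => (Finset.equivFinOfCardEq hc).symm i
    with hκdef
  have hκt : ∀ i, κ i ∈ t := fun i =>
    htfin.mem_toFinset.1 ((Finset.equivFinOfCardEq hc).symm i).2
  have hκ : ∀ i, Exceptional p q (κ i) ∧ (κ i).map (mul m) = μ := fun i => ht (hκt i)
  have hinj : Function.Injective κ := fun i j hij =>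
    (Finset.equivFinOfCardEq hc).symm.injective (Subtype.ext hij)
  have hprob : ∀ i, IsProbabilityMeasure (κ i) := fun i => (hκ i).1.1
  have hsing : ∀ i j, i ≠ j → κ i ⟂ₘ κ j := fun i j hij =>
    exceptional_singular (hκ i).1 (hκ j).1 (hinj.ne hij)
  have hμ : IsProbabilityMeasure μ := (hκ 0).2 ▸
    Measure.isProbabilityMeasure_map (cont_mul m).measurable.aemeasurable
  -- disjoint carriers
  have hpair : ∀ i j, ∃ s : Set UnitAddCircle, MeasurableSet s ∧
      (i ≠ j → κ i s = 0 ∧ κ j sᶜ = 0) := by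
    intro i j
    by_cases hij : i = j
    · exact ⟨∅, MeasurableSet.empty, fun h => absurd hij h⟩
    · obtain ⟨s, hs, h1, h2⟩ := hsing i j hij
      exact ⟨s, hs, fun _ => ⟨h1, h2⟩⟩
  choose s hs hs' using hpair
  set A : Fin (m + 1) → Set UnitAddCircle := fun i => ⋂ j : {j // j ≠ i}, ((s i j)ᶜ ∩ s j i)
    with hA
  have hAm : ∀ i, MeasurableSet (A i) := fun i =>
    MeasurableSet.iInter fun j => (hs i j).compl.inter (hs j i)
  have hA0 : ∀ i, κ i (A i)ᶜ = 0 := by
    intro i
    rw [hA, compl_iInter]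
    refine measure_iUnion_null fun j => ?_
    rw [compl_inter, compl_compl]
    exact measure_union_null (hs' i j j.2.symm).1 (hs' j i j.2).2
  have hdisj : ∀ i j, i ≠ j → Disjoint (A i) (A j) := by
    intro i j hij
    refine Set.disjoint_left.2 fun x hxi hxj => ?_
    have h1 := (mem_iInter.1 hxi ⟨j, hij.symm⟩).1
    have h2 := (mem_iInter.1 hxj ⟨i, hij⟩).2
    exact h1 h2
  set ε : ℝ≥0∞ := ((m + 2 : ℕ) : ℝ≥0∞)⁻¹ with hε
  have hε0 : ε ≠ 0 := ENNReal.inv_ne_zero.2 (ENNReal.natCast_ne_top _)
  have hK : ∀ i, ∃ K ⊆ A i, IsClosed K ∧ κ i (A i \ K) < ε := fun i =>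
    (hAm i).exists_isClosed_sdiff_lt (measure_ne_top _ _) hε0
  choose K hKA hKc hKε using hK
  have hKε' : ∀ i, κ i (K i)ᶜ ≤ ε := by
    intro i
    have : (K i)ᶜ ⊆ (A i)ᶜ ∪ (A i \ K i) := by
      intro x hx
      by_cases hxA : x ∈ A i
      · exact Or.inr ⟨hxA, hx⟩
      · exact Or.inl hxA
    refine (measure_mono this).trans ((measure_union_le _ _).trans ?_)
    rw [hA0, zero_add]
    exact (hKε i).le
  have hC : ∀ i, μ (mul m '' K i)ᶜ ≤ ε := by
    intro i
    have hcl : IsClosed (mul m '' K i) := ((hKc i).isCompact.image (cont_mul m)).isClosed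
    rw [← (hκ i).2, Measure.map_apply (cont_mul m).measurable hcl.measurableSet.compl]
    refine (measure_mono ?_).trans (hKε' i)
    intro x hx hxK
    exact hx ⟨x, hxK, rfl⟩
  have hlt : μ (⋃ i, (mul m '' K i)ᶜ) < 1 := by
    calc μ (⋃ i, (mul m '' K i)ᶜ) ≤ ∑ i : Fin (m + 1), μ (mul m '' K i)ᶜ :=
          measure_iUnion_fintype_le _ _
      _ ≤ ∑ _ : Fin (m + 1), ε := Finset.sum_le_sum fun i _ => hC i
      _ = (m + 1 : ℕ) * ((m + 2 : ℕ) : ℝ≥0∞)⁻¹ := by
          rw [Finset.sum_const, Finset.card_univ, Fintype.card_fin, nsmul_eq_mul]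
      _ < 1 := by
          rw [← div_eq_mul_inv, ENNReal.div_lt_iff (Or.inl (by simp))
            (Or.inl (ENNReal.natCast_ne_top _)), one_mul]
          exact_mod_cast Nat.lt_succ_self (m + 1)
  obtain ⟨y, hy⟩ : ∃ y, y ∉ ⋃ i, (mul m '' K i)ᶜ := by
    by_contra hall
    push Not at hall
    rw [Set.eq_univ_of_forall hall, measure_univ] at hlt
    exact lt_irrefl _ hlt
  have hy' : ∀ i, ∃ x ∈ K i, mul m x = y := by
    intro i
    by_contra hcon'
    exact hy (mem_iUnion.2 ⟨i, hcon'⟩)
  choose x hxK hxy using hy'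
  have hxinj : Function.Injective x := by
    intro i j hij
    by_contra hne
    have h1 := hKA i (hxK i)
    rw [hij] at h1
    exact Set.disjoint_left.1 (hdisj i j hne) h1 (hKA j (hxK j))
  have hsub : range (fun i => x i - x 0) ⊆ {u : UnitAddCircle | m • u = 0} := by
    rintro _ ⟨i, rfl⟩
    have h1 : m • x i = y := hxy i
    have h2 : m • x 0 = y := hxy 0
    simp only [mem_ofPred_eq, smul_sub, h1, h2, sub_self]
  have hle := (Set.encard_le_encard hsub).trans (AddCircle.card_torsion_le_of_isSMulRegular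
    (1 : ℝ) m (by omega) (.of_right_eq_zero_of_smul fun z hz => by
      have hm0 : (m : ℝ) ≠ 0 := Nat.cast_ne_zero.2 (by omega)
      simpa [hm0] using hz))
  have hinj' : Function.Injective (fun i => x i - x 0) := fun i j hij =>
    hxinj (sub_left_injective hij)
  rw [← Set.image_univ, hinj'.encard_image, Set.encard_univ] at hle
  simp at hle
  have : ((m + 1 : ℕ) : ℕ∞) ≤ (m : ℕ∞) := by push_cast; exact hle
  have h9 : m + 1 ≤ m := by exact_mod_cast this
  omega

end Pool.Agent.U106.FC
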