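import Mathlib

/-!
# The joint fixed space of two measure preserving maps
-/

set_option autoImplicit false
set_option linter.unusedSectionVars false

open MeasureTheory Filter Topology Set
open scoped ENNReal NNReal

namespace Pool.Agent.U106.FC

variable {X : Type*} [MetricSpace X] [CompactSpace X] [MeasurableSpace X] [BorelSpace X]
  {μ : Measure X} [IsProbabilityMeasure μ]

/-- The Koopman operator. -/
noncomputable def koop {R : X → X} (hR : MeasurePreserving R μ μ) : Lp ℂ 2 μ →ₗᵢ[ℂ] Lp ℂ 2 μ :=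
  Lp.compMeasurePreservingₗᵢ ℂ R hR

/-- The mean of two Koopman operators. -/
noncomputable def mean {S T : X → X} (hS : MeasurePreserving S μ μ)
    (hT : MeasurePreserving T μ μ) : Lp ℂ 2 μ →L[ℂ] Lp ℂ 2 μ :=
  (1 / 2 : ℂ) • ((koop hS).toContinuousLinearMap + (koop hT).toContinuousLinearMap)

theorem mean_apply {S T : X → X} (hS : MeasurePreserving S μ μ)
    (hT : MeasurePreserving T μ μ) (f : Lp ℂ 2 μ) :
    mean hS hT f = (1 / 2 : ℂ) • (koop hS f + koop hT f) := rfl

theorem mean_norm {S T : X → X} (hS : MeasurePreserving S μ μ)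
    (hT : MeasurePreserving T μ μ) : ‖mean hS hT‖ ≤ 1 := by
  refine ContinuousLinearMap.opNorm_le_bound _ zero_le_one fun f => ?_
  rw [mean_apply, norm_smul, one_mul]
  have h1 : ‖koop hS f + koop hT f‖ ≤ 2 * ‖f‖ := by
    refine (norm_add_le _ _).trans ?_
    rw [(koop hS).norm_map, (koop hT).norm_map]
    linarith
  have h2 : ‖(1 / 2 : ℂ)‖ = 1 / 2 := by simp
  rw [h2]
  linarith

theorem fixed {S T : X → X} (hS : MeasurePreserving S μ μ)
    (hT : MeasurePreserving T μ μ) {f : Lp ℂ 2 μ} (h : mean hS hT f = f) :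
    koop hS f = f ∧ koop hT f = f := by
  have h0 : (1 / 2 : ℂ) • (koop hS f + koop hT f) = f := by rw [← mean_apply]; exact h
  have h1 : koop hS f + koop hT f = (2 : ℂ) • f := by
    calc koop hS f + koop hT f = (2 : ℂ) • ((1 / 2 : ℂ) • (koop hS f + koop hT f)) := by
          rw [smul_smul, mul_one_div_cancel (two_ne_zero (α := ℂ)), one_smul]
      _ = (2 : ℂ) • f := by rw [h0]
  have h2 : ‖koop hS f + koop hT f‖ = ‖koop hS f‖ + ‖koop hT f‖ := by
    rw [h1, norm_smul, (koop hS).norm_map, (koop hT).norm_map]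
    norm_num
    ring
  have h3 : koop hS f = koop hT f :=
    eq_of_norm_eq_of_norm_add_eq (by rw [(koop hS).norm_map, (koop hT).norm_map]) h2
  have h4 : koop hS f = f := by
    rw [← h3, ← two_smul ℂ] at h1
    exact (smul_right_injective _ (two_ne_zero (α := ℂ))) h1
  exact ⟨h4, h3 ▸ h4⟩

/-- The projection onto the joint fixed space. -/
noncomputable def proj {S T : X → X} (hS : MeasurePreserving S μ μ)
    (hT : MeasurePreserving T μ μ) (f : Lp ℂ 2 μ) : Lp ℂ 2 μ :=
  ((mean hS hT).eqLocus (1 : Lp ℂ 2 μ →L[ℂ] Lp ℂ 2 μ)).orthogonalProjectionOnto f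

theorem mean_proj {S T : X → X} (hS : MeasurePreserving S μ μ)
    (hT : MeasurePreserving T μ μ) (f : Lp ℂ 2 μ) :
    mean hS hT (proj hS hT f) = proj hS hT f :=
  (((mean hS hT).eqLocus (1 : Lp ℂ 2 μ →L[ℂ] Lp ℂ 2 μ)).orthogonalProjectionOnto f).2

theorem inner_proj {S T : X → X} (hS : MeasurePreserving S μ μ)
    (hT : MeasurePreserving T μ μ) (f g : Lp ℂ 2 μ) (hg : mean hS hT g = g) :
    inner ℂ g (proj hS hT f) = inner ℂ g f := by
  have := ((mean hS hT).eqLocus
    (1 : Lp ℂ 2 μ →L[ℂ] Lp ℂ 2 μ)).inner_orthogonalProjectionOnto_eq_of_mem_left ⟨g, hg⟩ f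
  exact this

theorem tendsto_proj {S T : X → X} (hS : MeasurePreserving S μ μ)
    (hT : MeasurePreserving T μ μ) (f : Lp ℂ 2 μ) :
    Tendsto (birkhoffAverage ℂ (mean hS hT) _root_.id · f) atTop (𝓝 (proj hS hT f)) :=
  (mean hS hT).tendsto_birkhoffAverage_orthogonalProjection (mean_norm hS hT) f

/-- Fixed vectors are characterised by their inner products. -/
theorem proj_koop {S T : X → X} (hS : MeasurePreserving S μ μ)
    (hT : MeasurePreserving T μ μ) (f : Lp ℂ 2 μ) :
    proj hS hT (koop hS f) = proj hS hT f ∧ proj hS hT (koop hT f) = proj hS hT f := by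
  have key : ∀ g : Lp ℂ 2 μ, (∀ h : Lp ℂ 2 μ, mean hS hT h = h → inner ℂ h g = inner ℂ h f) →
      proj hS hT g = proj hS hT f := by
    intro g hg
    have h1 : inner ℂ (proj hS hT g - proj hS hT f) (proj hS hT g - proj hS hT f) = (0 : ℂ) := by
      have hfix : mean hS hT (proj hS hT g - proj hS hT f) = proj hS hT g - proj hS hT f := by
        rw [map_sub, mean_proj, mean_proj]
      rw [inner_sub_right, inner_proj hS hT _ _ hfix, inner_proj hS hT _ _ hfix, hg _ hfix, sub_self]
    exact sub_eq_zero.1 (inner_self_eq_zero.1 h1)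
  constructor
  · refine key _ fun h hh => ?_
    have h1 := (fixed hS hT hh).1
    calc inner ℂ h (koop hS f) = inner ℂ (koop hS h) (koop hS f) := by rw [h1]
      _ = inner ℂ h f := (koop hS).inner_map_map h f
  · refine key _ fun h hh => ?_
    have h1 := (fixed hS hT hh).2
    calc inner ℂ h (koop hT f) = inner ℂ (koop hT h) (koop hT f) := by rw [h1]
      _ = inner ℂ h f := (koop hT).inner_map_map h f

/-! ### Continuous functions -/

/-- The mean of `f ∘ S` and `f ∘ T`. -/
noncomputable def cmean (S T : C(X, X)) : C(X, ℂ) →ₗ[ℂ] C(X, ℂ) where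
  toFun f := (1 / 2 : ℂ) • (f.comp S + f.comp T)
  map_add' f g := by
    ext x
    simp only [ContinuousMap.coe_smul, ContinuousMap.coe_add, Pi.smul_apply, Pi.add_apply,
      ContinuousMap.comp_apply, smul_eq_mul]
    ring
  map_smul' c f := by
    ext x
    simp only [ContinuousMap.coe_smul, ContinuousMap.coe_add, Pi.smul_apply, Pi.add_apply,
      ContinuousMap.comp_apply, smul_eq_mul, RingHom.id_apply]
    ring

/-- The class of a continuous function. -/
noncomputable def cl (μ : Measure X) [IsProbabilityMeasure μ] (f : C(X, ℂ)) : Lp ℂ 2 μ :=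
  ContinuousMap.toLp 2 μ ℂ f

theorem coeFn_cl (μ : Measure X) [IsProbabilityMeasure μ] (f : C(X, ℂ)) : cl μ f =ᵐ[μ] f :=
  ContinuousMap.coeFn_toLp μ f

theorem koop_cl {R : C(X, X)} (hR : MeasurePreserving R μ μ) (f : C(X, ℂ)) :
    koop hR (cl μ f) = cl μ (f.comp R) := by
  refine Lp.ext ?_
  have h1 : (koop hR (cl μ f) : X → ℂ) =ᵐ[μ] (cl μ f) ∘ R :=
    Lp.coeFn_compMeasurePreserving (cl μ f) hR
  have h2 : (cl μ f : X → ℂ) ∘ R =ᵐ[μ] f ∘ R :=
    hR.quasiMeasurePreserving.ae_eq_comp (coeFn_cl μ f)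
  exact (h1.trans h2).trans (coeFn_cl μ (f.comp R)).symm

theorem mean_cl {S T : C(X, X)} (hS : MeasurePreserving S μ μ)
    (hT : MeasurePreserving T μ μ) (f : C(X, ℂ)) :
    mean hS hT (cl μ f) = cl μ (cmean S T f) := by
  rw [mean_apply, koop_cl, koop_cl]
  simp only [cl, cmean, LinearMap.coe_mk, AddHom.coe_mk, map_smul, map_add]

/-- The averages of a continuous function. -/
noncomputable def cav (S T : C(X, X)) (n : ℕ) (f : C(X, ℂ)) : C(X, ℂ) :=
  birkhoffAverage ℂ (cmean S T) _root_.id n f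

theorem cav_cl {S T : C(X, X)} (hS : MeasurePreserving S μ μ)
    (hT : MeasurePreserving T μ μ) (n : ℕ) (f : C(X, ℂ)) :
    birkhoffAverage ℂ (mean hS hT) _root_.id n (cl μ f) = cl μ (cav S T n f) := by
  have hit : ∀ l, (mean hS hT)^[l] (cl μ f) = cl μ ((cmean S T)^[l] f) := by
    intro l
    induction l with
    | zero => rfl
    | succ l ih => rw [Function.iterate_succ_apply', ih, mean_cl, Function.iterate_succ_apply']
  simp only [cav, birkhoffAverage, birkhoffSum, _root_.id, hit]
  simp only [cl, map_smul, map_sum]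

theorem integral_restrict_comp {R : X → X} {ν : Measure X} (hR : MeasurePreserving R ν ν)
    {E : Set X} (hE : MeasurableSet E) (hRE : R ⁻¹' E = E) {f : X → ℂ}
    (hf : AEStronglyMeasurable f ν) : ∫ x in E, f (R x) ∂ν = ∫ x in E, f x ∂ν := by
  have h1 : MeasurePreserving R (ν.restrict E) (ν.restrict E) := by
    have := hR.restrict_preimage hE
    rwa [hRE] at this
  conv_rhs => rw [← h1.map_eq]
  rw [integral_map h1.measurable.aemeasurable]
  rw [h1.map_eq]
  exact hf.restrict

/-- The averages do not change the integral over an invariant set. -/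
theorem cav_integral {S T : C(X, X)} {ν : Measure X} [IsFiniteMeasure ν]
    (hS : MeasurePreserving S ν ν) (hT : MeasurePreserving T ν ν) {E : Set X}
    (hE : MeasurableSet E) (hSE : S ⁻¹' E = E) (hTE : T ⁻¹' E = E) {n : ℕ} (hn : 1 ≤ n)
    (f : C(X, ℂ)) : ∫ x in E, cav S T n f x ∂ν = ∫ x in E, f x ∂ν := by
  have hint : ∀ g : C(X, ℂ), Integrable g (ν.restrict E) := fun g =>
    g.continuous.integrable_of_hasCompactSupport (HasCompactSupport.of_compactSpace g)
  have h1 : ∀ g : C(X, ℂ), ∫ x in E, cmean S T g x ∂ν = ∫ x in E, g x ∂ν := by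
    intro g
    have e : ∀ x, cmean S T g x = (1 / 2 : ℂ) * (g (S x) + g (T x)) := fun x => rfl
    simp only [e]
    have hadd := integral_add (hint (g.comp S)) (hint (g.comp T))
    simp only [ContinuousMap.comp_apply] at hadd
    rw [integral_const_mul, hadd,
      integral_restrict_comp hS hE hSE g.continuous.aestronglyMeasurable,
      integral_restrict_comp hT hE hTE g.continuous.aestronglyMeasurable]
    ring
  have h2 : ∀ l, ∫ x in E, ((cmean S T)^[l] f) x ∂ν = ∫ x in E, f x ∂ν := by
    intro l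
    induction l with
    | zero => rfl
    | succ l ih => rw [Function.iterate_succ_apply', h1, ih]
  have e : ∀ x, cav S T n f x = (n : ℂ)⁻¹ * ∑ l ∈ Finset.range n, ((cmean S T)^[l] f) x := by
    intro x
    simp only [cav, birkhoffAverage, birkhoffSum, _root_.id, ContinuousMap.coe_smul, Pi.smul_apply,
      ContinuousMap.coe_sum, Finset.sum_apply, smul_eq_mul]
  simp only [e]
  rw [integral_const_mul, integral_finsetSum _ (fun l _ => hint _)]
  simp only [h2, Finset.sum_const, Finset.card_range, nsmul_eq_mul]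
  rw [← mul_assoc, inv_mul_cancel₀ (Nat.cast_ne_zero.2 (by omega)), one_mul]

end Pool.Agent.U106.FC
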