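import Pool.Agent.U106.FC.ErgEx

/-!
# Lifts of exceptional measures
-/

set_option autoImplicit false
set_option linter.unusedSectionVars false

open MeasureTheory Filter Topology Set ProbabilityTheory
open scoped ENNReal NNReal

namespace Pool.Agent.U106.FC

/-! ### Almost invariant sets -/

theorem trivial_of_ae {p q : ℕ} {μ : Measure UnitAddCircle} (h : Exceptional p q μ)
    {E : Set UnitAddCircle} (hE : MeasurableSet E) (hp : mul p ⁻¹' E =ᵐ[μ] E)
    (hq : mul q ⁻¹' E =ᵐ[μ] E) : μ E = 0 ∨ μ E = 1 := by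
  obtain ⟨-, -, h3, h4, h5, -⟩ := h
  have hS : MeasurePreserving (mul p) μ μ := h3
  have hT : MeasurePreserving (mul q) μ μ := h4
  -- all preimages agree
  have hit : ∀ (m : ℕ), MeasurePreserving (mul m) μ μ → mul m ⁻¹' E =ᵐ[μ] E → ∀ i : ℕ,
      mul (m ^ i) ⁻¹' E =ᵐ[μ] E := by
    intro m hm hmE i
    induction i with
    | zero =>
      have : mul (m ^ 0) ⁻¹' E = E := by
        ext x
        simp [mul]
      exact Filter.EventuallyEq.of_eq this
    | succ i ih =>
      have e : mul (m ^ (i + 1)) ⁻¹' E = mul m ⁻¹' (mul (m ^ i) ⁻¹' E) := by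
        ext x
        simp only [mem_preimage, mul, pow_succ, mul_smul]
      rw [e]
      exact (hm.quasiMeasurePreserving.preimage_ae_eq ih).trans hmE
  have hall : ∀ᵐ x ∂μ, ∀ i j : ℕ, (mul (p ^ i) (mul (q ^ j) x) ∈ E ↔ x ∈ E) := by
    refine ae_all_iff.2 fun i => ae_all_iff.2 fun j => ?_
    have hTj : MeasurePreserving (mul (q ^ j)) μ μ := by
      rw [← mul_iter]
      exact hT.iterate j
    have h1 : mul (q ^ j) ⁻¹' (mul (p ^ i) ⁻¹' E) =ᵐ[μ] E :=
      (hTj.quasiMeasurePreserving.preimage_ae_eq (hit p hS hp i)).trans (hit q hT hq j)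
    filter_upwards [h1] with x hx
    exact iff_of_eq hx
  set E' : Set UnitAddCircle := {x | ∃ a b : ℕ, ∀ i j : ℕ, a ≤ i → b ≤ j →
    mul (p ^ i) (mul (q ^ j) x) ∈ E} with hE'
  have hE'm : MeasurableSet E' := by
    have : E' = ⋃ a : ℕ, ⋃ b : ℕ, ⋂ i : ℕ, ⋂ j : ℕ, ⋂ _ : a ≤ i, ⋂ _ : b ≤ j,
        (fun x => mul (p ^ i) (mul (q ^ j) x)) ⁻¹' E := by
      ext x
      simp only [hE', mem_ofPred_eq, mem_iUnion, mem_iInter, mem_preimage]
    rw [this]
    refine MeasurableSet.iUnion fun a => MeasurableSet.iUnion fun b => MeasurableSet.iInter fun i =>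
      MeasurableSet.iInter fun j => MeasurableSet.iInter fun _ => MeasurableSet.iInter fun _ => ?_
    exact ((cont_mul _).comp (cont_mul _)).measurable hE
  have hpE' : (fun x : UnitAddCircle => p • x) ⁻¹' E' = E' := by
    ext x
    simp only [hE', mem_preimage, mem_ofPred_eq]
    constructor
    · rintro ⟨a, b, hab⟩
      refine ⟨a + 1, b, fun i j hi hj => ?_⟩
      have := hab (i - 1) j (by omega) hj
      have e : mul (p ^ (i - 1)) (mul (q ^ j) (p • x)) = mul (p ^ i) (mul (q ^ j) x) := by
        simp only [mul, smul_smul]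
        congr 1
        have : p ^ i = p ^ (i - 1) * p := by
          rw [← pow_succ]
          congr 1
          omega
        rw [this]
        ring
      rwa [e] at this
    · rintro ⟨a, b, hab⟩
      refine ⟨a, b, fun i j hi hj => ?_⟩
      have := hab (i + 1) j (by omega) hj
      have e : mul (p ^ i) (mul (q ^ j) (p • x)) = mul (p ^ (i + 1)) (mul (q ^ j) x) := by
        simp only [mul, smul_smul]
        congr 1
        ring
      rwa [e]
  have hqE' : (fun x : UnitAddCircle => q • x) ⁻¹' E' = E' := by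
    ext x
    simp only [hE', mem_preimage, mem_ofPred_eq]
    constructor
    · rintro ⟨a, b, hab⟩
      refine ⟨a, b + 1, fun i j hi hj => ?_⟩
      have := hab i (j - 1) hi (by omega)
      have e : mul (p ^ i) (mul (q ^ (j - 1)) (q • x)) = mul (p ^ i) (mul (q ^ j) x) := by
        simp only [mul, smul_smul]
        congr 1
        have : q ^ j = q ^ (j - 1) * q := by
          rw [← pow_succ]
          congr 1
          omega
        rw [this]
      rwa [e] at this
    · rintro ⟨a, b, hab⟩
      refine ⟨a, b, fun i j hi hj => ?_⟩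
      have := hab i (j + 1) hi (by omega)
      have e : mul (p ^ i) (mul (q ^ j) (q • x)) = mul (p ^ i) (mul (q ^ (j + 1)) x) := by
        simp only [mul, smul_smul]
        congr 1
      rwa [e]
  have hEE' : μ E = μ E' := by
    refine measure_congr ?_
    filter_upwards [hall] with x hx
    have h6 : (x ∈ E) = (x ∈ E') := by
      apply propext
      constructor
      · intro hxE
        exact ⟨0, 0, fun i j _ _ => (hx i j).2 hxE⟩
      · rintro ⟨a, b, hab⟩
        exact (hx a b).1 (hab a b le_rfl le_rfl)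
    exact h6
  rw [hEE']
  exact h5 E' hE'm hpE' hqE'

theorem phi_eq_co {p q : ℕ} {μ : Measure UnitAddCircle} [IsProbabilityMeasure μ]
    (h : Exceptional p q μ) (hS : MeasurePreserving (cm p) μ μ)
    (hT : MeasurePreserving (cm q) μ μ) (k : ℤ) : ∀ᵐ x ∂μ, phi hS hT k x = co μ k := by
  obtain ⟨a, ha⟩ : ∃ a : ℂ, phi hS hT k =ᵐ[μ] Function.const UnitAddCircle a := by
    refine Filter.exists_eventuallyEq_const_of_forall_separating (l := ae μ)
      (MeasurableSet : Set ℂ → Prop) fun U hU => ?_
    set E : Set UnitAddCircle := phi hS hT k ⁻¹' U with hEdef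
    have hE : MeasurableSet E := phi_meas hS hT k hU
    have h1 : mul p ⁻¹' E =ᵐ[μ] E := by
      filter_upwards [(phi_inv hS hT).1] with x hx
      have hx' : phi hS hT k (mul p x) = phi hS hT k x := congrFun hx k
      have : (mul p x ∈ E) = (x ∈ E) := by
        simp only [hEdef, mem_preimage, hx']
      exact this
    have h2 : mul q ⁻¹' E =ᵐ[μ] E := by
      filter_upwards [(phi_inv hS hT).2] with x hx
      have hx' : phi hS hT k (mul q x) = phi hS hT k x := congrFun hx k
      have : (mul q x ∈ E) = (x ∈ E) := by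
        simp only [hEdef, mem_preimage, hx']
      exact this
    rcases trivial_of_ae h hE h1 h2 with h3 | h3
    · right
      exact measure_eq_zero_iff_ae_notMem.1 h3
    · left
      exact (mem_ae_iff_prob_eq_one hE).2 h3
  have h2 := setIntegral_phi hS hT k (A := univ) MeasurableSet.univ
  rw [Measure.restrict_univ] at h2
  have h3 : a = co μ k := by
    calc a = ∫ _, a ∂μ := by simp
      _ = ∫ x, phi hS hT k x ∂μ := integral_congr_ae (ha.mono fun x hx => hx.symm)
      _ = co μ k := h2
  filter_upwards [ha] with x hx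
  rw [hx, h3]
  rfl

/-- The averages converge almost everywhere along a subsequence of any sequence. -/
theorem subseq_const {p q : ℕ} {μ : Measure UnitAddCircle} (h : Exceptional p q μ) (k : ℤ)
    {m : ℕ → ℕ} (hm : Tendsto m atTop atTop) : ∃ n : ℕ → ℕ, StrictMono n ∧
    ∀ᵐ x ∂μ, Tendsto (fun j => cav (cm p) (cm q) (m (n j)) (fourier k) x) atTop
      (𝓝 (co μ k)) := by
  have hprob := h.1
  have hS : MeasurePreserving (cm p) μ μ := h.2.2.1
  have hT : MeasurePreserving (cm q) μ μ := h.2.2.2.1
  have h1 := (tendsto_proj hS hT (cl μ (fourier k))).comp hm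
  have h2 : TendstoInMeasure μ (fun j => ⇑(birkhoffAverage ℂ (mean hS hT) _root_.id (m j)
      (cl μ (fourier k)))) atTop (phi hS hT k) := tendstoInMeasure_of_tendsto_Lp h1
  obtain ⟨n, hn, hlim⟩ := h2.exists_seq_tendsto_ae
  refine ⟨n, hn, ?_⟩
  have h3 : ∀ᵐ x ∂μ, ∀ j, (birkhoffAverage ℂ (mean hS hT) _root_.id (m (n j))
      (cl μ (fourier k))) x = cav (cm p) (cm q) (m (n j)) (fourier k) x := by
    refine ae_all_iff.2 fun j => ?_
    rw [cav_cl]
    exact coeFn_cl μ _
  filter_upwards [hlim, h3, phi_eq_co h hS hT k] with x hx hx3 hx4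
  rw [← hx4]
  simpa only [hx3] using hx

/-- Different exceptional measures are mutually singular. -/
theorem exceptional_singular {p q : ℕ} {μ ν : Measure UnitAddCircle} (hμ : Exceptional p q μ)
    (hν : Exceptional p q ν) (hne : μ ≠ ν) : μ ⟂ₘ ν := by
  have hprob := hμ.1
  have hprob' := hν.1
  obtain ⟨k, hk⟩ : ∃ k : ℤ, co μ k ≠ co ν k := by
    by_contra hcon
    push Not at hcon
    exact hne (Pool.Agent.R202.ext_fourier hcon)
  obtain ⟨m, hm, hmlim⟩ := subseq_const hμ k tendsto_id
  obtain ⟨n, hn, hnlim⟩ := subseq_const hν k hm.tendsto_atTop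
  have hmlim' : ∀ᵐ x ∂μ, Tendsto (fun j => cav (cm p) (cm q) (m (n j)) (fourier k) x) atTop
      (𝓝 (co μ k)) := by
    filter_upwards [hmlim] with x hx
    exact hx.comp hn.tendsto_atTop
  have hmeas : MeasurableSet {x : UnitAddCircle | Tendsto
      (fun j => cav (cm p) (cm q) (m (n j)) (fourier k) x) atTop (𝓝 (co μ k))} :=
    measurableSet_tendsto_fun (fun j => (cav (cm p) (cm q) (m (n j))
      (fourier k)).continuous.measurable) measurable_const
  refine ⟨{x : UnitAddCircle | Tendsto
      (fun j => cav (cm p) (cm q) (m (n j)) (fourier k) x) atTop (𝓝 (co μ k))}ᶜ,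
      hmeas.compl, ?_, ?_⟩
  · exact ae_iff.1 hmlim'
  · rw [compl_compl]
    refine measure_mono_null (fun x hx => ?_) (ae_iff.1 hnlim)
    simp only [mem_ofPred_eq] at hx ⊢
    intro h
    exact hk (tendsto_nhds_unique hx h)

end Pool.Agent.U106.FC
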