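import Pool.Agent.U106.FC.Conj
import Pool.Agent.R202.Rot

/-!
# Wiener's theorem on the circle
-/

set_option autoImplicit false
set_option linter.unusedSectionVars false

open MeasureTheory Filter Topology Set
open scoped ENNReal NNReal

namespace Pool.Agent.U106.FC

/-- The Fourier coefficient. -/
noncomputable def co (μ : Measure UnitAddCircle) (n : ℤ) : ℂ := ∫ x, (fourier n x : ℂ) ∂μ

lemma norm_fourier (n : ℤ) (x : UnitAddCircle) : ‖(fourier n x : ℂ)‖ = 1 := by
  rw [fourier_apply]
  exact Circle.norm_coe _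

lemma fourier_nsmul (n : ℤ) (s : ℕ) (x : UnitAddCircle) :
    (fourier n (s • x) : ℂ) = fourier (n * s) x := by
  rw [fourier_apply, fourier_apply, mul_smul, natCast_zsmul]

lemma fourier_sub_pt (n : ℤ) (x y : UnitAddCircle) :
    (fourier n (x - y) : ℂ) = fourier n x * fourier (-n) y := by
  rw [fourier_apply, fourier_apply, fourier_apply, ← Circle.coe_mul, ← AddCircle.toCircle_add,
    neg_smul, smul_sub, sub_eq_add_neg]

lemma co_map (μ : Measure UnitAddCircle) (m : ℕ) (n : ℤ) :
    co (μ.map (mul m)) n = co μ (n * m) := by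
  rw [co, integral_map (cont_mul m).measurable.aemeasurable
    (fourier n).continuous.aestronglyMeasurable]
  simp only [mul, fourier_nsmul]
  rfl

lemma co_sq (μ : Measure UnitAddCircle) [IsProbabilityMeasure μ] (m : ℤ) :
    ∫ z : UnitAddCircle × UnitAddCircle, (fourier m (z.1 - z.2) : ℂ) ∂(μ.prod μ) =
      ((‖co μ m‖ ^ 2 : ℝ) : ℂ) := by
  simp_rw [fourier_sub_pt]
  rw [integral_prod_mul (fun x : UnitAddCircle => (fourier m x : ℂ))
    (fun y : UnitAddCircle => (fourier (-m) y : ℂ))]
  have h1 : ∫ y, (fourier (-m) y : ℂ) ∂μ = (starRingEnd ℂ) (∫ y, (fourier m y : ℂ) ∂μ) := by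
    rw [← integral_conj]
    refine integral_congr_ae (Eventually.of_forall fun y => ?_)
    exact fourier_neg
  rw [h1, Complex.mul_conj, Complex.normSq_eq_norm_sq]
  rfl

/-- Averages of characters. -/
lemma avg_char (t : UnitAddCircle) :
    Tendsto (fun N : ℕ => (N : ℂ)⁻¹ * ∑ k ∈ Finset.range N, (fourier (k : ℤ) t : ℂ)) atTop
      (𝓝 (if t = 0 then 1 else 0)) := by
  split_ifs with h
  · subst h
    refine (tendsto_congr' ?_).2 tendsto_const_nhds
    filter_upwards [eventually_gt_atTop 0] with N hN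
    have : (N : ℂ) ≠ 0 := Nat.cast_ne_zero.2 hN.ne'
    simp [this]
  · have h1 : (fourier (1 : ℤ) t : ℂ) ≠ 1 := by
      intro h1
      apply h
      rw [fourier_one] at h1
      have h7 : AddCircle.toCircle t = AddCircle.toCircle (0 : UnitAddCircle) := by
        rw [AddCircle.toCircle_zero]
        exact Subtype.ext h1
      exact AddCircle.injective_toCircle one_ne_zero h7
    have hpow : ∀ k : ℕ, (fourier (k : ℤ) t : ℂ) = (fourier (1 : ℤ) t : ℂ) ^ k := by
      intro k
      induction k with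
      | zero => simp
      | succ k ih =>
        rw [Nat.cast_succ, fourier_add, ih, pow_succ]
    have hz : ‖(fourier (1 : ℤ) t : ℂ)‖ = 1 := norm_fourier 1 t
    set z : ℂ := (fourier (1 : ℤ) t : ℂ) with hzdef
    have hz1 : 0 < ‖z - 1‖ := norm_pos_iff.2 (sub_ne_zero.2 h1)
    refine squeeze_zero_norm (a := fun N : ℕ => (2 / ‖z - 1‖) * (1 / (N : ℝ))) (fun N => ?_) ?_
    · simp only [hpow]
      rw [geom_sum_eq h1, norm_mul, norm_div, norm_inv, Complex.norm_natCast]
      have h2 : ‖z ^ N - 1‖ ≤ 2 := by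
        have := norm_sub_le (z ^ N) 1
        rw [norm_pow, hz, one_pow, norm_one] at this
        linarith
      have h3 : ‖z ^ N - 1‖ / ‖z - 1‖ ≤ 2 / ‖z - 1‖ := by gcongr
      rw [mul_comm, one_div]
      gcongr
    · have := tendsto_one_div_atTop_nhds_zero_nat (𝕜 := ℝ)
      simpa using this.const_mul (2 / ‖z - 1‖)

/-- **Wiener's theorem.** -/
theorem wiener (μ : Measure UnitAddCircle) [IsProbabilityMeasure μ] :
    Tendsto (fun N : ℕ => (N : ℝ)⁻¹ * ∑ k ∈ Finset.range N, ‖co μ k‖ ^ 2) atTop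
      (𝓝 ((μ.prod μ).real {z | z.1 = z.2})) := by
  have hdiag : MeasurableSet {z : UnitAddCircle × UnitAddCircle | z.1 = z.2} :=
    measurableSet_eq_fun measurable_fst measurable_snd
  have hcont : ∀ k : ℕ, Continuous fun z : UnitAddCircle × UnitAddCircle =>
      (fourier (k : ℤ) (z.1 - z.2) : ℂ) := fun k =>
    (fourier (k : ℤ)).continuous.comp (continuous_fst.sub continuous_snd)
  have h := tendsto_integral_of_dominated_convergence (μ := μ.prod μ)
    (F := fun (N : ℕ) (z : UnitAddCircle × UnitAddCircle) =>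
      (N : ℂ)⁻¹ * ∑ k ∈ Finset.range N, (fourier (k : ℤ) (z.1 - z.2) : ℂ))
    (f := fun z => if z.1 - z.2 = 0 then 1 else 0) (fun _ => 1)
    (fun N => (Continuous.mul continuous_const
      (continuous_finsetSum _ fun k _ => hcont k)).aestronglyMeasurable)
    (integrable_const _) (fun N => Eventually.of_forall fun z => by
      rw [norm_mul, norm_inv, Complex.norm_natCast]
      have h2 : ‖∑ k ∈ Finset.range N, (fourier (k : ℤ) (z.1 - z.2) : ℂ)‖ ≤ N := by
        refine (norm_sum_le _ _).trans ((Finset.sum_le_sum (g := fun _ => (1 : ℝ))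
          fun k _ => (norm_fourier _ _).le).trans ?_)
        simp
      rcases Nat.eq_zero_or_pos N with h0 | hN
      · subst h0; simp
      · have hN' : (0 : ℝ) < N := Nat.cast_pos.2 hN
        rw [inv_mul_le_iff₀ hN', mul_one]
        exact h2)
    (Eventually.of_forall fun z => avg_char (z.1 - z.2))
  have e1 : ∀ N : ℕ, ∫ z, (N : ℂ)⁻¹ * ∑ k ∈ Finset.range N,
      (fourier (k : ℤ) (z.1 - z.2) : ℂ) ∂(μ.prod μ) =
      (((N : ℝ)⁻¹ * ∑ k ∈ Finset.range N, ‖co μ k‖ ^ 2 : ℝ) : ℂ) := by
    intro N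
    rw [integral_const_mul, integral_finsetSum]
    · simp only [co_sq]
      push_cast
      rfl
    · intro k _
      exact Integrable.of_bound (hcont k).aestronglyMeasurable 1
        (Eventually.of_forall fun z => (norm_fourier _ _).le)
  have e2 : ∫ z : UnitAddCircle × UnitAddCircle, (if z.1 - z.2 = 0 then (1 : ℂ) else 0) ∂(μ.prod μ) =
      (((μ.prod μ).real {z | z.1 = z.2} : ℝ) : ℂ) := by
    have : (fun z : UnitAddCircle × UnitAddCircle => (if z.1 - z.2 = 0 then (1 : ℂ) else 0)) =
        indicator {z | z.1 = z.2} (fun _ => (1 : ℂ)) := by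
      funext z
      simp only [indicator, mem_ofPred_eq, sub_eq_zero]
    rw [this, integral_indicator_const _ hdiag]
    simp
  rw [e2] at h
  simp only [e1] at h
  have h' := (Complex.continuous_re.tendsto _).comp h
  simpa only [Function.comp_def, Complex.ofReal_re] using h'

theorem diag_zero_iff (μ : Measure UnitAddCircle) [IsProbabilityMeasure μ] :
    (μ.prod μ).real {z | z.1 = z.2} = 0 ↔ ∀ x, μ {x} = 0 := by
  have hdiag : MeasurableSet {z : UnitAddCircle × UnitAddCircle | z.1 = z.2} :=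
    measurableSet_eq_fun measurable_fst measurable_snd
  have h1 : (μ.prod μ) {z | z.1 = z.2} = ∫⁻ x, μ {x} ∂μ := by
    rw [Measure.prod_apply hdiag]
    refine lintegral_congr fun x => ?_
    congr 1
    ext y
    simp [eq_comm]
  rw [measureReal_def, ENNReal.toReal_eq_zero_iff, or_iff_left (measure_ne_top _ _), h1]
  constructor
  · intro h x
    by_contra hx
    have h2 : ∫⁻ y, indicator {x} (fun _ => μ {x}) y ∂μ ≤ ∫⁻ y, μ {y} ∂μ := by
      refine lintegral_mono fun y => ?_
      by_cases hy : y ∈ ({x} : Set UnitAddCircle)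
      · rw [indicator_of_mem hy, mem_singleton_iff.1 hy]
      · rw [indicator_of_notMem hy]
        exact zero_le
    rw [h, lintegral_indicator_const (measurableSet_singleton x)] at h2
    have := le_antisymm h2 zero_le
    exact hx (by simpa using this)
  · intro h
    simp [h]

theorem wiener_atomless {μ : Measure UnitAddCircle} [IsProbabilityMeasure μ]
    (h : ∀ x, μ {x} = 0) :
    Tendsto (fun N : ℕ => (N : ℝ)⁻¹ * ∑ k ∈ Finset.range N, ‖co μ k‖ ^ 2) atTop (𝓝 0) := by
  have := wiener μ
  rwa [(diag_zero_iff μ).2 h] at this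

theorem atomless_of_wiener {μ : Measure UnitAddCircle} [IsProbabilityMeasure μ]
    (h : Tendsto (fun N : ℕ => (N : ℝ)⁻¹ * ∑ k ∈ Finset.range N, ‖co μ k‖ ^ 2) atTop (𝓝 0)) :
    ∀ x, μ {x} = 0 :=
  (diag_zero_iff μ).1 (tendsto_nhds_unique (wiener μ) h)

end Pool.Agent.U106.FC
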